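import Mathlib

set_option autoImplicit false

open Finset

namespace Pool.Agent.H.MP_9152e2_an

variable {N : ℕ} [NeZero N]

lemma parseval (f : ZMod N → ℂ) :
    ∑ r : ZMod N, ‖∑ y, f y * ZMod.stdAddChar (r * y)‖ ^ 2 = N * ∑ y, ‖f y‖ ^ 2 := by
  apply Complex.ofReal_injective
  push_cast
  simp only [← Complex.mul_conj', map_sum, map_mul, sum_mul_sum]
  have e : ∀ r y y' : ZMod N, f y * ZMod.stdAddChar (r * y) *
      ((starRingEnd ℂ) (f y') * (starRingEnd ℂ) (ZMod.stdAddChar (r * y'))) =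
      f y * (starRingEnd ℂ) (f y') * ZMod.stdAddChar (r * (y - y')) := by
    intro r y y'
    rw [← AddChar.map_neg_eq_conj, mul_sub, sub_eq_add_neg, AddChar.map_add_eq_mul]; ring
  simp only [e]
  rw [sum_comm, mul_sum]
  refine sum_congr rfl fun y _ => ?_
  rw [sum_comm]
  simp only [← mul_sum, AddChar.sum_mulShift _ (ZMod.isPrimitive_stdAddChar N), sub_eq_zero]
  rw [sum_eq_single y]
  · simp [ZMod.card, mul_comm]
  · intro b _ hb; simp [hb.symm]
  · simp

lemma poincare {d : ℕ} (t : Fin d → ZMod N) {κ : ℝ}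
    (h : ∀ r : ZMod N, r ≠ 0 → κ ≤ ∑ j, ‖ZMod.stdAddChar (r * t j) - 1‖ ^ 2) (f : ZMod N → ℝ) :
    κ * (N * ∑ y, f y ^ 2 - (∑ y, f y) ^ 2) ≤ N * ∑ j, ∑ y, (f (y + t j) - f y) ^ 2 := by
  set F : ZMod N → ℂ := fun r => ∑ y, (f y : ℂ) * ZMod.stdAddChar (r * y) with hF
  have p0 : ∑ r, ‖F r‖ ^ 2 = N * ∑ y, f y ^ 2 := by
    rw [hF, parseval]; simp
  have p1 : ∀ j, N * ∑ y, (f (y + t j) - f y) ^ 2 =
      ∑ r, ‖ZMod.stdAddChar (-r * t j) - 1‖ ^ 2 * ‖F r‖ ^ 2 := by
    intro j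
    have := parseval (fun y => ((f (y + t j) - f y : ℝ) : ℂ))
    simp only [Complex.norm_real, Real.norm_eq_abs, sq_abs] at this
    rw [← this]
    refine sum_congr rfl fun r _ => ?_
    rw [← mul_pow, ← norm_mul]
    congr 2
    push_cast
    simp only [sub_mul, sum_sub_distrib, one_mul, hF]
    congr 1
    rw [mul_sum, ← (Equiv.subRight (t j)).sum_comp]
    refine sum_congr rfl fun y _ => ?_
    simp only [Equiv.subRight_apply, sub_add_cancel]
    rw [mul_sub, sub_eq_add_neg, AddChar.map_add_eq_mul, neg_mul]; ring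
  have p2 : ‖F 0‖ ^ 2 = (∑ y, f y) ^ 2 := by
    simp only [hF, zero_mul, AddChar.map_zero_eq_one, mul_one, ← Complex.ofReal_sum,
      Complex.norm_real, Real.norm_eq_abs, sq_abs]
  have p3 : (N : ℝ) * ∑ j, ∑ y, (f (y + t j) - f y) ^ 2 =
      ∑ r, (∑ j, ‖ZMod.stdAddChar (-r * t j) - 1‖ ^ 2) * ‖F r‖ ^ 2 := by
    rw [mul_sum]
    simp only [p1, sum_mul]
    exact sum_comm
  rw [p3, ← p0, ← p2, ← sum_erase_add _ _ (mem_univ 0), add_sub_cancel_right, mul_sum]
  refine le_trans (sum_le_sum fun r hr => mul_le_mul_of_nonneg_right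
    (h (-r) (neg_ne_zero.2 (ne_of_mem_erase hr))) (by positivity))
    (sum_le_sum_of_subset_of_nonneg (erase_subset _ _) fun _ _ _ => by positivity)

lemma generate {d : ℕ} (t : Fin d → ZMod N) {κ : ℝ} (hκ : 0 < κ)
    (h : ∀ r : ZMod N, r ≠ 0 → κ ≤ ∑ j, ‖ZMod.stdAddChar (r * t j) - 1‖ ^ 2) (y : ZMod N) :
    ∃ a : Fin d → ℤ, y = ∑ j, (a j : ZMod N) * t j := by
  classical
  set S := univ.filter (fun y : ZMod N => ∃ a : Fin d → ℤ, y = ∑ j, (a j : ZMod N) * t j) with hS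
  have key : ∀ (y : ZMod N) (j : Fin d) (c : ℤ), y ∈ S → y + c * t j ∈ S := by
    intro y j c hy
    obtain ⟨a, rfl⟩ := (mem_filter.1 hy).2
    refine mem_filter.2 ⟨mem_univ _, a + Pi.single j c, ?_⟩
    simp only [Pi.add_apply, Int.cast_add, add_mul, sum_add_distrib]
    congr 1
    rw [sum_eq_single j] <;> simp +contextual
  have p := poincare t h (fun y => if y ∈ S then 1 else 0)
  have z : ∀ j y, (if y + t j ∈ S then (1 : ℝ) else 0) = if y ∈ S then 1 else 0 := by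
    intro j y
    have : y + t j ∈ S ↔ y ∈ S :=
      ⟨fun hy => by simpa using key _ j (-1) hy, fun hy => by simpa using key _ j 1 hy⟩
    simp only [this]
  simp only [z, sub_self, ne_eq, OfNat.ofNat_ne_zero, not_false_eq_true, zero_pow, sum_const_zero,
    mul_zero, ite_pow, one_pow, sum_boole, filter_mem_eq_inter, univ_inter] at p
  have s0 : (0 : ℝ) < S.card := by
    have : (0 : ZMod N) ∈ S := mem_filter.2 ⟨mem_univ _, 0, by simp⟩
    exact_mod_cast card_pos.2 ⟨0, this⟩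
  have s1 : (N : ℝ) ≤ S.card := by
    have := nonpos_of_mul_nonpos_right p hκ
    nlinarith
  have s2 : S = univ := eq_univ_of_card S (le_antisymm (card_le_univ S) (by
    rw [ZMod.card]; exact_mod_cast s1))
  have : y ∈ S := s2 ▸ mem_univ y
  exact (mem_filter.1 this).2

lemma conc {d : ℕ} (t : Fin d → ZMod N) {κ : ℝ} (hκ : 0 < κ)
    (h : ∀ r : ZMod N, r ≠ 0 → κ ≤ ∑ j, ‖ZMod.stdAddChar (r * t j) - 1‖ ^ 2)
    (A C : Finset (ZMod N)) {δ ε : ℝ} (hε : 0 < ε)
    (hC : ∀ y ∈ C, ∀ a : Fin d → ℤ, y - ∑ j, (a j : ZMod N) * t j ∈ A →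
      ε ^ 2 ≤ δ ^ 2 * ∑ j, (a j : ℝ) ^ 2) :
    κ * (A.card * C.card * ε ^ 4) ≤ (N : ℝ) ^ 2 * (32 * δ ^ 2 * ε ^ 2 + 8 * d * δ ^ 4) := by
  classical
  rcases A.eq_empty_or_nonempty with rfl | ⟨y0, hy0⟩
  · simp; positivity
  have ex : ∀ y : ZMod N, ∃ a : Fin d → ℤ, y - ∑ j, (a j : ZMod N) * t j ∈ A ∧
      ∀ b : Fin d → ℤ, y - ∑ j, (b j : ZMod N) * t j ∈ A →
        ∑ j, (a j : ℝ) ^ 2 ≤ ∑ j, (b j : ℝ) ^ 2 := by
    intro y
    have hne : ∃ m : ℕ, ∃ a : Fin d → ℤ, y - ∑ j, (a j : ZMod N) * t j ∈ A ∧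
        ∑ j, (a j).natAbs ^ 2 = m := by
      obtain ⟨a, ha⟩ := generate t hκ h (y - y0)
      exact ⟨_, a, by rw [← ha]; simpa using hy0, rfl⟩
    obtain ⟨a, ha, hm⟩ := Nat.find_spec hne
    refine ⟨a, ha, fun b hb => ?_⟩
    have := Nat.find_min' hne ⟨b, hb, rfl⟩
    rw [← hm] at this
    have h2 : ((∑ j, (a j).natAbs ^ 2 : ℕ) : ℝ) ≤ (∑ j, (b j).natAbs ^ 2 : ℕ) := by
      exact_mod_cast this
    simpa using h2
  choose a ha hmin using ex
  set Φ : ZMod N → ℝ := fun y => min (δ ^ 2 * ∑ j, (a y j : ℝ) ^ 2) (ε ^ 2) with hΦ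
  have up : ∀ (c : ℤ), c ^ 2 = 1 → ∀ y, ∑ j, (max (Φ (y + c * t j) - Φ y) 0) ^ 2 ≤
      8 * δ ^ 2 * ε ^ 2 + 2 * d * δ ^ 4 := by
    intro c hc y
    have hc' : (c : ℝ) ^ 2 = 1 := by exact_mod_cast hc
    rcases le_or_gt (ε ^ 2) (δ ^ 2 * ∑ j, (a y j : ℝ) ^ 2) with h1 | h1
    · have : ∀ j, max (Φ (y + c * t j) - Φ y) 0 = 0 := fun j => max_eq_right (by
        simp only [hΦ, min_eq_right h1]; linarith [min_le_right (δ ^ 2 *
          ∑ i, (a (y + c * t j) i : ℝ) ^ 2) (ε ^ 2)])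
      simp only [this]; simp; positivity
    · have b1 : ∀ j, max (Φ (y + c * t j) - Φ y) 0 ≤ δ ^ 2 * (2 * |(a y j : ℝ)| + 1) := by
        intro j
        refine max_le ?_ (by positivity)
        have b2 := hmin (y + c * t j) (a y + Pi.single j c) (by
          have : ∑ i, (((a y + Pi.single j c : Fin d → ℤ) i : ℤ) : ZMod N) * t i =
              ∑ i, (a y i : ZMod N) * t i + c * t j := by
            simp only [Pi.add_apply, Int.cast_add, add_mul, sum_add_distrib]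
            congr 1
            rw [sum_eq_single j] <;> simp +contextual
          rw [this, add_sub_add_right_eq_sub]
          exact ha y)
        have b3 : ∑ i, (((a y + Pi.single j c : Fin d → ℤ) i : ℤ) : ℝ) ^ 2 =
            ∑ i, (a y i : ℝ) ^ 2 + (2 * a y j * c + 1) := by
          simp only [Pi.add_apply, Int.cast_add, add_sq, sum_add_distrib, add_assoc]
          congr 2
          · rw [sum_eq_single j] <;> simp +contextual
          · rw [sum_eq_single j] <;> simp +contextual [hc']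
        have b4 : (a y j : ℝ) * c ≤ |(a y j : ℝ)| := by
          refine (le_abs_self _).trans ?_
          rw [abs_mul]
          have : |(c : ℝ)| = 1 := by
            rwa [← pow_eq_one_iff_of_nonneg (abs_nonneg _) two_ne_zero, sq_abs]
          rw [this, mul_one]
        simp only [hΦ, min_eq_left h1.le]
        have b5 := min_le_left (δ ^ 2 * ∑ i, (a (y + c * t j) i : ℝ) ^ 2) (ε ^ 2)
        rw [b3] at b2
        nlinarith [mul_le_mul_of_nonneg_left b2 (sq_nonneg δ),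
          mul_le_mul_of_nonneg_left b4 (sq_nonneg δ)]
      have b6 : ∀ j, (max (Φ (y + c * t j) - Φ y) 0) ^ 2 ≤ δ ^ 4 * (8 * (a y j : ℝ) ^ 2 + 2) := by
        intro j
        refine (pow_le_pow_left₀ (le_max_right _ _) (b1 j) 2).trans ?_
        rw [mul_pow, ← pow_mul, ← sq_abs (a y j : ℝ)]
        exact mul_le_mul_of_nonneg_left (by nlinarith [sq_nonneg (2 * |(a y j : ℝ)| - 1)])
          (Even.pow_nonneg (by decide) _)
      refine (sum_le_sum fun j _ => b6 j).trans ?_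
      rw [← mul_sum, sum_add_distrib, ← mul_sum]
      simp only [sum_const, card_univ, Fintype.card_fin, nsmul_eq_mul]
      nlinarith [mul_le_mul_of_nonneg_left h1.le (sq_nonneg δ)]
  have grad : ∑ j, ∑ y, (Φ (y + t j) - Φ y) ^ 2 ≤ N * (16 * δ ^ 2 * ε ^ 2 + 4 * d * δ ^ 4) := by
    have e : ∀ j, ∑ y, (Φ (y + t j) - Φ y) ^ 2 = ∑ y, ((max (Φ (y + (1 : ℤ) * t j) - Φ y) 0) ^ 2 +
        (max (Φ (y + (-1 : ℤ) * t j) - Φ y) 0) ^ 2) := by
      intro j
      rw [sum_add_distrib, ← Equiv.sum_comp (Equiv.addRight (t j))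
        (fun y => (max (Φ (y + (-1 : ℤ) * t j) - Φ y) 0) ^ 2), ← sum_add_distrib]
      refine sum_congr rfl fun y _ => ?_
      simp only [Int.cast_one, one_mul, Equiv.coe_addRight, Int.cast_neg, neg_mul,
        add_neg_cancel_right]
      rcases le_total (Φ (y + t j)) (Φ y) with h1 | h1
      · rw [max_eq_right (by linarith), max_eq_left (by linarith)]; ring
      · rw [max_eq_left (by linarith), max_eq_right (by linarith)]; ring
    simp only [e]
    rw [sum_comm]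
    refine (sum_le_card_nsmul _ _ (16 * δ ^ 2 * ε ^ 2 + 4 * d * δ ^ 4) fun y _ => ?_).trans
      (by rw [card_univ, ZMod.card, nsmul_eq_mul])
    rw [sum_add_distrib]
    linarith [up 1 (by norm_num) y, up (-1) (by norm_num) y]
  have var : (A.card * C.card * ε ^ 4 : ℝ) ≤ 2 * (N * ∑ y, Φ y ^ 2 - (∑ y, Φ y) ^ 2) := by
    have e : ∑ y, ∑ y', (Φ y - Φ y') ^ 2 = 2 * (N * ∑ y, Φ y ^ 2 - (∑ y, Φ y) ^ 2) := by
      simp only [sub_sq, sum_add_distrib, sum_sub_distrib, sum_const, card_univ, ZMod.card,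
        nsmul_eq_mul, ← mul_sum, ← sum_mul]
      ring
    rw [← e, ← sum_product']
    refine le_trans ?_ (sum_le_sum_of_subset_of_nonneg (s := A ×ˢ C)
      (product_subset_product (subset_univ _) (subset_univ _)) fun _ _ _ => sq_nonneg _)
    refine le_trans (le_of_eq ?_) (card_nsmul_le_sum _ _ (ε ^ 4) fun q hq => le_of_eq ?_)
    · simp
    · have a1 : Φ q.1 = 0 := by
        have := hmin q.1 0 (by simpa using (mem_product.1 hq).1)
        simp only [Pi.zero_apply, Int.cast_zero, ne_eq, OfNat.ofNat_ne_zero, not_false_eq_true,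
          zero_pow, sum_const_zero] at this
        have h0 : ∑ j, (a q.1 j : ℝ) ^ 2 = 0 :=
          le_antisymm this (sum_nonneg fun _ _ => sq_nonneg _)
        simp only [hΦ, h0, mul_zero]
        exact min_eq_left (sq_nonneg _)
      have a2 : Φ q.2 = ε ^ 2 := min_eq_right (hC _ (mem_product.1 hq).2 _ (ha _))
      rw [a1, a2]; ring
  have p := poincare t h Φ
  have n0 : (0 : ℝ) ≤ N := by positivity
  nlinarith [mul_le_mul_of_nonneg_left var hκ.le, mul_le_mul_of_nonneg_left grad n0]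

end Pool.Agent.H.MP_9152e2_an
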