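import Mathlib

set_option autoImplicit false

open Finset

namespace Pool.Agent.H.MP_9152e2_an

/-- two sided geometric weight -/
noncomputable def gw (β : ℝ) (k : ℤ) : ℝ := Real.exp (-(β * |(k : ℝ)|))

lemma gw_pos (β : ℝ) (k : ℤ) : 0 < gw β k := Real.exp_pos _

lemma gw_hasSum {β : ℝ} (hβ : 0 < β) : ∃ Z, HasSum (gw β) Z ∧ 1 / β ≤ Z ∧ Z ≤ 1 + 2 / β := by
  set q := Real.exp (-β) with hq
  have q0 : 0 < q := Real.exp_pos _
  have q1 : q < 1 := by rw [hq, Real.exp_lt_one_iff]; linarith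
  have h1 : HasSum (fun n : ℕ => gw β n) (1 - q)⁻¹ := by
    convert hasSum_geometric_of_lt_one q0.le q1 using 2 with n
    rw [gw, hq, ← Real.exp_nat_mul]; congr 1; simp; ring
  have h2 : HasSum (fun n : ℕ => gw β (-(n + 1))) (q * (1 - q)⁻¹) := by
    refine ((hasSum_geometric_of_lt_one q0.le q1).mul_left q).congr_fun fun n => ?_
    rw [gw, hq, ← Real.exp_nat_mul, ← Real.exp_add]; congr 1
    push_cast
    rw [abs_neg, abs_of_nonneg (by positivity)]; ring
  have a1 : 1 - q ≤ β := by linarith [Real.add_one_le_exp (-β)]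
  have a2 : q * (1 + β) ≤ 1 := by
    have := Real.add_one_le_exp β
    have e : q * Real.exp β = 1 := by rw [hq, ← Real.exp_add]; simp
    nlinarith
  have a3 : 0 < 1 - q := by linarith
  refine ⟨_, HasSum.of_nat_of_neg_add_one h1 h2, ?_, ?_⟩
  · have : 1 / β ≤ (1 - q)⁻¹ := by rw [one_div]; exact inv_anti₀ a3 a1
    have : 0 ≤ q * (1 - q)⁻¹ := by positivity
    linarith
  · have e : (1 - q)⁻¹ = 1 + q * (1 - q)⁻¹ := by field_simp; ring
    have : q * (1 - q)⁻¹ ≤ 1 / β := by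
      rw [← div_eq_mul_inv, div_le_div_iff₀ a3 hβ]; linarith
    have e2 : 2 / β = 1 / β + 1 / β := by ring
    linarith

lemma count_small (d M : ℕ) (hM : 1 ≤ M) :
    (((Fintype.piFinset fun _ : Fin d => Icc (-((d * M : ℕ) : ℤ)) (d * M : ℕ)).filter
      (fun a : Fin d → ℤ => ∑ j, |a j| ≤ ((d * M : ℕ) : ℤ))).card : ℝ) ≤ (9 * M) ^ d := by
  have hM' : (1 : ℝ) ≤ M := by exact_mod_cast hM
  obtain ⟨Z, hZ, -, hZ2⟩ := gw_hasSum (show (0 : ℝ) < 1 / M by positivity)
  set B := Icc (-((d * M : ℕ) : ℤ)) (d * M : ℕ)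
  have h1 : ∑ k ∈ B, gw (1 / M) k ≤ 3 * M := by
    have := sum_le_hasSum B (fun k _ => (gw_pos _ k).le) hZ
    have e : 2 / (1 / (M : ℝ)) = 2 * M := by field_simp
    linarith
  have h2 : ∑ a ∈ Fintype.piFinset fun _ : Fin d => B, ∏ j, gw (1 / M) (a j) ≤ (3 * M) ^ d := by
    rw [← prod_univ_sum (fun _ : Fin d => B) (fun _ k => gw (1 / M) k), prod_const, card_univ,
      Fintype.card_fin]
    exact pow_le_pow_left₀ (sum_nonneg fun k _ => (gw_pos _ k).le) h1 d
  have h3 : ∀ a ∈ (Fintype.piFinset fun _ : Fin d => B).filter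
      (fun a : Fin d → ℤ => ∑ j, |a j| ≤ ((d * M : ℕ) : ℤ)), (1 / 3 : ℝ) ^ d ≤ ∏ j, gw (1 / M) (a j) := by
    intro a ha
    have b1 : ∑ j, |(a j : ℝ)| ≤ d * M := by exact_mod_cast (mem_filter.1 ha).2
    simp only [gw]
    rw [← Real.exp_sum, sum_neg_distrib, ← mul_sum]
    have b2 : (1 / 3 : ℝ) ≤ Real.exp (-1) := by
      rw [Real.exp_neg, one_div]
      exact inv_anti₀ (Real.exp_pos _) (by linarith [Real.exp_one_lt_d9])
    refine (pow_le_pow_left₀ (by norm_num) b2 d).trans ?_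
    rw [← Real.exp_nat_mul, Real.exp_le_exp]
    have : 1 / (M : ℝ) * ∑ j, |(a j : ℝ)| ≤ d := by
      rw [one_div, inv_mul_le_iff₀ (by linarith)]; linarith
    linarith
  have h4 := (card_nsmul_le_sum _ _ _ h3).trans ((sum_le_sum_of_subset_of_nonneg
    (filter_subset _ _) fun a _ _ => prod_nonneg fun j _ => (gw_pos _ _).le).trans h2)
  rw [nsmul_eq_mul] at h4
  have e : (9 * (M : ℝ)) ^ d * (1 / 3) ^ d = (3 * M) ^ d := by rw [← mul_pow]; congr 1; ring
  rw [← e] at h4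
  exact le_of_mul_le_mul_right h4 (by positivity)

lemma count_ker {p d : ℕ} [Fact p.Prime] (a : Fin d → ZMod p) (ha : a ≠ 0) :
    (univ.filter (fun τ : Fin d → ZMod p => ∑ j, a j * τ j = 0)).card * p ≤ p ^ d := by
  obtain ⟨j0, hj⟩ := Function.ne_iff.1 ha
  have hj' : a j0 ≠ 0 := hj
  have := card_le_card_of_injOn (s := (univ.filter
      (fun τ : Fin d → ZMod p => ∑ j, a j * τ j = 0)) ×ˢ (univ : Finset (ZMod p)))
    (t := (univ : Finset (Fin d → ZMod p))) (fun q => q.1 + Pi.single j0 q.2)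
    (fun _ _ => mem_coe.2 (mem_univ _)) (by
      rintro ⟨τ, c⟩ h1 ⟨τ', c'⟩ h2 h
      simp only [coe_product, Set.mem_prod, mem_coe, mem_filter, mem_univ, true_and,
        and_true] at h1 h2
      simp only at h
      have e := congrArg (fun x : Fin d → ZMod p => ∑ j, a j * x j) h
      simp only [Pi.add_apply, mul_add, sum_add_distrib, h1, h2, zero_add] at e
      have s : ∀ c : ZMod p, ∑ j, a j * (Pi.single j0 c : Fin d → ZMod p) j = a j0 * c := by
        intro c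
        rw [sum_eq_single j0] <;> simp +contextual [Pi.single_apply]
      rw [s, s] at e
      have hc := mul_left_cancel₀ hj' e
      subst hc
      rw [add_left_inj] at h
      rw [h])
  simpa [card_product, ZMod.card] using this

lemma std_far {p : ℕ} [NeZero p] (y : ZMod p) :
    4 * |(y.valMinAbs : ℝ)| ≤ ‖ZMod.stdAddChar y - 1‖ * p := by
  have hp : (0 : ℝ) < p := by exact_mod_cast NeZero.pos p
  set v := y.valMinAbs with hv
  have e : ZMod.stdAddChar y = Complex.exp (Complex.I * ((2 * (Real.pi * v / p) : ℝ) : ℂ)) := by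
    rw [← ZMod.coe_valMinAbs y, ZMod.stdAddChar_coe]
    congr 1
    push_cast
    ring
  have h1 : 2 * |(v : ℝ)| ≤ p := by
    have := ZMod.natAbs_valMinAbs_le y
    have h2 : 2 * v.natAbs ≤ p := by omega
    have h3 : ((2 * v.natAbs : ℕ) : ℝ) ≤ p := by exact_mod_cast h2
    simpa using h3
  have h4 : |Real.pi * v / p| = Real.pi * |(v : ℝ)| / p := by
    rw [abs_div, abs_mul, abs_of_pos Real.pi_pos, abs_of_pos hp]
  have h5 := Real.mul_abs_le_abs_sin (x := Real.pi * v / p) (by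
    rw [h4, div_le_iff₀ hp]; nlinarith [Real.pi_pos])
  rw [e, Complex.norm_exp_I_mul_ofReal_sub_one, mul_div_cancel_left₀ _ two_ne_zero,
    Real.norm_eq_abs, abs_mul, abs_two]
  rw [h4] at h5
  have e2 : 2 / Real.pi * (Real.pi * |(v : ℝ)| / p) = 2 * |(v : ℝ)| / p := by field_simp
  rw [e2, div_le_iff₀ hp] at h5
  linarith

lemma count_near {p : ℕ} [Fact p.Prime] (z : ℂ) (hz : ‖z‖ = 1) {c : ZMod p} (hc : c ≠ 0)
    {s : ℝ} (hs : 0 ≤ s) :
    ((univ.filter (fun τ : ZMod p => ‖z * ZMod.stdAddChar (c * τ) - 1‖ ≤ s)).card : ℝ) ≤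
      s * p + 1 := by
  classical
  have hp : (0 : ℝ) < p := by exact_mod_cast NeZero.pos p
  rcases (univ.filter (fun τ : ZMod p =>
    ‖z * ZMod.stdAddChar (c * τ) - 1‖ ≤ s)).eq_empty_or_nonempty with h | ⟨τ0, h0⟩
  · rw [h]; simp; positivity
  set R := ⌊s * p / 2⌋₊ with hR
  have := card_le_card_of_injOn
    (s := univ.filter (fun τ : ZMod p => ‖z * ZMod.stdAddChar (c * τ) - 1‖ ≤ s))
    (t := Icc (-(R : ℤ)) R) (fun τ => (c * (τ - τ0)).valMinAbs) (fun τ hτ => by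
      have a1 := (mem_filter.1 (mem_coe.1 hτ)).2
      have a2 := (mem_filter.1 h0).2
      have a3 := std_far (c * (τ - τ0))
      have e : z * ZMod.stdAddChar (c * τ) - 1 - (z * ZMod.stdAddChar (c * τ0) - 1) =
          z * ZMod.stdAddChar (c * τ0) * (ZMod.stdAddChar (c * (τ - τ0)) - 1) := by
        have : c * τ = c * τ0 + c * (τ - τ0) := by ring
        rw [this, AddChar.map_add_eq_mul]; ring
      have a4 := norm_sub_le (z * ZMod.stdAddChar (c * τ) - 1) (z * ZMod.stdAddChar (c * τ0) - 1)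
      rw [e, norm_mul, norm_mul, hz, AddChar.norm_apply, one_mul, one_mul] at a4
      have a5 : |((c * (τ - τ0)).valMinAbs : ℝ)| ≤ s * p / 2 := by nlinarith
      have a6 : (c * (τ - τ0)).valMinAbs.natAbs ≤ R := by
        rw [hR]; apply Nat.le_floor; simpa using a5
      rw [mem_coe, mem_Icc]
      beta_reduce
      omega) (fun τ _ τ' _ h => by
      have := mul_left_cancel₀ hc (ZMod.injective_valMinAbs h)
      exact sub_left_inj.1 this)
  have h2 : (R : ℝ) ≤ s * p / 2 := Nat.floor_le (by positivity)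
  rw [Int.card_Icc] at this
  have h3 : ((R : ℤ) + 1 - -R).toNat = 2 * R + 1 := by omega
  rw [h3] at this
  have h4 : ((univ.filter (fun τ : ZMod p =>
    ‖z * ZMod.stdAddChar (c * τ) - 1‖ ≤ s)).card : ℝ) ≤ 2 * R + 1 := by exact_mod_cast this
  linarith

lemma count_few {Y : Type} [Fintype Y] [DecidableEq Y] {d : ℕ} (B : Fin d → Finset Y) {σ b : ℝ}
    (h0 : 0 < σ) (h1 : σ ≤ 1) (hB : ∀ j, ((B j).card : ℝ) ≤ b) :
    ((univ.filter (fun τ : Fin d → Y => 3 * (univ.filter (fun j => τ j ∉ B j)).card ≤ d)).card : ℝ)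
      * σ ^ d ≤ (b + σ ^ 3 * Fintype.card Y) ^ d := by
  set w : Fin d → Y → ℝ := fun j y => if y ∉ B j then σ ^ 3 else 1 with hw
  have w0 : ∀ j y, 0 ≤ w j y := fun j y => by simp only [hw]; split_ifs <;> positivity
  have a1 : ∑ τ : Fin d → Y, ∏ j, w j (τ j) ≤ (b + σ ^ 3 * Fintype.card Y) ^ d := by
    rw [← Fintype.piFinset_univ, ← prod_univ_sum]
    refine (prod_le_prod (fun j _ => sum_nonneg fun y _ => w0 j y) (fun j _ => ?_)).trans
      (le_of_eq (by rw [prod_const, card_univ, Fintype.card_fin]))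
    simp only [hw]
    rw [sum_ite, sum_const, sum_const, nsmul_eq_mul, nsmul_eq_mul, mul_one]
    have b1 : ((univ.filter (fun y => y ∉ B j)).card : ℝ) ≤ Fintype.card Y := by
      exact_mod_cast card_le_univ _
    have b2 : univ.filter (fun y => ¬ (y ∉ B j)) = B j := by ext y; simp
    rw [b2]
    nlinarith [hB j, pow_pos h0 3]
  have a2 : ∀ τ ∈ univ.filter (fun τ : Fin d → Y =>
      3 * (univ.filter (fun j => τ j ∉ B j)).card ≤ d), σ ^ d ≤ ∏ j, w j (τ j) := by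
    intro τ hτ
    simp only [hw]
    rw [prod_ite, prod_const, prod_const_one, mul_one, ← pow_mul]
    exact pow_le_pow_of_le_one h0.le h1 (mem_filter.1 hτ).2
  have := (card_nsmul_le_sum _ _ _ a2).trans ((sum_le_sum_of_subset_of_nonneg
    (filter_subset _ _) fun a _ _ => prod_nonneg fun j _ => w0 _ _).trans a1)
  rwa [nsmul_eq_mul] at this

/-- `exp (2 π i x)` -/
noncomputable def ex (x : ℝ) : ℂ := Complex.exp (2 * Real.pi * Complex.I * x)

lemma step (N M D : ℕ) (hN : 0 < N) (hM : 1 ≤ M) : ∃ (p d : ℕ) (t : Fin d → ℤ),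
    0 < p ∧ D ≤ d ∧ 0 < d ∧
    (∀ a : Fin d → ℤ, a ≠ 0 → (p : ℤ) ∣ ∑ j, a j * t j → ((d * M : ℕ) : ℤ) ≤ ∑ j, |a j|) ∧
    (∀ r : ℤ, ¬ ((N * p : ℕ) : ℤ) ∣ r →
      (d : ℝ) / (3 * (54 * M) ^ 3) ≤ ∑ j, ‖ex (r * t j / (N * p : ℕ)) - 1‖ ^ 2) := by
  classical
  have : NeZero N := ⟨hN.ne'⟩
  have hM' : (1 : ℝ) ≤ M := by exact_mod_cast hM
  obtain ⟨d, hd⟩ : ∃ d, d = N * (D + 8) := ⟨_, rfl⟩
  have hd8 : 8 * N ≤ d := by rw [hd]; nlinarith
  have hd0 : 0 < d := by omega
  have h2d : d < 2 ^ d := Nat.lt_two_pow_self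
  obtain ⟨p, hp, hp1, hp2⟩ := Nat.exists_prime_lt_and_le_two_mul (2 * (9 * M) ^ d)
    (by positivity)
  have : Fact p.Prime := ⟨hp⟩
  have hQ : d * M < (9 * M) ^ d := by
    rw [mul_pow]
    have a1 : 2 ^ d ≤ 9 ^ d := Nat.pow_le_pow_left (by norm_num) d
    have a2 : M ≤ M ^ d := Nat.le_self_pow hd0.ne' M
    calc d * M < 9 ^ d * M := Nat.mul_lt_mul_of_pos_right (by omega) (by omega)
      _ ≤ _ := Nat.mul_le_mul_left _ a2
  have hdM : d ≤ d * M := Nat.le_mul_of_pos_right d (by omega)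
  have hp0 : (0 : ℝ) < p := by exact_mod_cast hp.pos
  have hp1' : 2 * (9 * (M : ℝ)) ^ d < p := by exact_mod_cast hp1
  have hp2' : (p : ℝ) ≤ 2 * (2 * (9 * (M : ℝ)) ^ d) := by exact_mod_cast hp2
  obtain ⟨σ, hσ⟩ : ∃ σ : ℝ, σ = (Real.sqrt (54 * M))⁻¹ := ⟨_, rfl⟩
  have σ0 : 0 < σ := by rw [hσ]; positivity
  have σ2 : σ ^ 2 = (54 * (M : ℝ))⁻¹ := by rw [hσ, inv_pow, Real.sq_sqrt (by positivity)]
  have σ1 : σ ≤ 1 := by
    refine (pow_le_one_iff_of_nonneg σ0.le two_ne_zero).1 ?_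
    rw [σ2]
    exact inv_le_one_of_one_le₀ (by linarith)
  have σp : 1 ≤ σ ^ 3 * p := by
    have a1 : σ ^ 4 ≤ σ ^ 3 := pow_le_pow_of_le_one σ0.le σ1 (by norm_num)
    have a2 : (9 * (M : ℝ)) ^ 8 ≤ (9 * (M : ℝ)) ^ d :=
      pow_le_pow_right₀ (by linarith) (by omega)
    have a3 : σ ^ 4 * (54 * (M : ℝ)) ^ 2 = 1 := by
      rw [show σ ^ 4 = (σ ^ 2) ^ 2 by ring, σ2]; field_simp
    have a4 : (54 * (M : ℝ)) ^ 2 ≤ (9 * (M : ℝ)) ^ 8 := by
      have : (1 : ℝ) ≤ M ^ 6 := one_le_pow₀ hM'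
      have : (0 : ℝ) < M ^ 2 := by positivity
      nlinarith
    have a5 : (54 * (M : ℝ)) ^ 2 ≤ p := by nlinarith [pow_pos (show (0 : ℝ) < 9 * M by linarith) d]
    calc (1 : ℝ) = σ ^ 4 * (54 * (M : ℝ)) ^ 2 := a3.symm
      _ ≤ σ ^ 3 * p := mul_le_mul a1 a5 (by positivity) (by positivity)
  set V := ((Fintype.piFinset fun _ : Fin d => Icc (-((d * M : ℕ) : ℤ)) (d * M : ℕ)).filter
      (fun a : Fin d → ℤ => ∑ j, |a j| ≤ ((d * M : ℕ) : ℤ))).filter (fun a => a ≠ 0) with hV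
  set Bad1 := V.biUnion (fun a => univ.filter
    (fun τ : Fin d → ZMod p => ∑ j, (a j : ZMod p) * τ j = 0)) with hB1
  set Bj : ZMod N → ZMod p → Fin d → Finset (ZMod p) := fun u c j => univ.filter
    (fun τ : ZMod p => ‖ZMod.stdAddChar (u * ((j : ℕ) : ZMod N)) * ZMod.stdAddChar (c * τ) - 1‖ ≤ σ ^ 3)
    with hBj
  set Bad2 := ((univ : Finset (ZMod N)) ×ˢ (univ.filter (fun c : ZMod p => c ≠ 0))).biUnion
    (fun q => univ.filter (fun τ : Fin d → ZMod p =>
      3 * (univ.filter (fun j => τ j ∉ Bj q.1 q.2 j)).card ≤ d)) with hB2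
  have c1 : (Bad1.card : ℝ) * 2 < p ^ d := by
    have a1 : Bad1.card * p ≤ V.card * p ^ d := by
      refine (Nat.mul_le_mul_right _ card_biUnion_le).trans ?_
      rw [sum_mul]
      refine sum_le_card_nsmul _ _ _ fun a ha => count_ker _ ?_
      obtain ⟨b1, b2⟩ := mem_filter.1 ha
      obtain ⟨j, hj⟩ := Function.ne_iff.1 b2
      refine Function.ne_iff.2 ⟨j, fun h => hj ?_⟩
      have b3 := mem_Icc.1 (Fintype.mem_piFinset.1 (mem_filter.1 b1).1 j)
      have b4 := (ZMod.intCast_zmod_eq_zero_iff_dvd _ _).1 h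
      exact Int.eq_zero_of_abs_lt_dvd b4 (abs_lt.2 ⟨by omega, by omega⟩)
    have a2 : (V.card : ℝ) ≤ (9 * M) ^ d :=
      le_trans (by exact_mod_cast card_filter_le _ _) (count_small d M hM)
    have a3 : (Bad1.card : ℝ) * p ≤ V.card * p ^ d := by exact_mod_cast a1
    have a4 : (0 : ℝ) < p ^ d := by positivity
    have : (Bad1.card : ℝ) * 2 * p < p ^ d * p := by nlinarith
    exact lt_of_mul_lt_mul_right this hp0.le
  have c2 : (Bad2.card : ℝ) * 2 < p ^ d := by
    have a1 : (Bad2.card : ℝ) ≤ N * p * ((3 * σ ^ 2) ^ d * p ^ d) := by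
      refine le_trans (b := ∑ q ∈ ((univ : Finset (ZMod N)) ×ˢ
        (univ.filter (fun c : ZMod p => c ≠ 0))), ((univ.filter (fun τ : Fin d → ZMod p =>
          3 * (univ.filter (fun j => τ j ∉ Bj q.1 q.2 j)).card ≤ d)).card : ℝ))
        (by exact_mod_cast card_biUnion_le) ?_
      refine (sum_le_card_nsmul _ _ ((3 * σ ^ 2) ^ d * p ^ d) fun q hq => ?_).trans ?_
      · have b1 := count_few (Bj q.1 q.2) σ0 σ1 (b := σ ^ 3 * p + 1) (fun j =>
          count_near _ (AddChar.norm_apply _ _) (mem_filter.1 (mem_product.1 hq).2).2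
            (by positivity))
        rw [ZMod.card] at b1
        have b2 : (σ ^ 3 * p + 1 + σ ^ 3 * p) ^ d ≤ (3 * σ ^ 2) ^ d * p ^ d * σ ^ d := by
          rw [← mul_pow, ← mul_pow]
          exact pow_le_pow_left₀ (by positivity) (by nlinarith) d
        exact le_of_mul_le_mul_right (b1.trans b2) (by positivity)
      · rw [nsmul_eq_mul, card_product, card_univ, ZMod.card]
        have : ((univ.filter (fun c : ZMod p => c ≠ 0)).card : ℝ) ≤ p := by
          have := card_le_univ (univ.filter (fun c : ZMod p => c ≠ 0))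
          rw [ZMod.card] at this
          exact_mod_cast this
        push_cast
        gcongr
    have a2 : (9 * (M : ℝ)) ^ d * (3 * σ ^ 2) ^ d * 2 ^ d = 1 := by
      rw [← mul_pow, ← mul_pow, σ2]
      have : 9 * (M : ℝ) * (3 * (54 * (M : ℝ))⁻¹) * 2 = 1 := by field_simp; norm_num
      rw [this, one_pow]
    have a3 : 8 * (N : ℝ) < 2 ^ d := by exact_mod_cast (by omega : 8 * N < 2 ^ d)
    have a4 : (0 : ℝ) < p ^ d := by positivity
    have a5 : (0 : ℝ) < (3 * σ ^ 2) ^ d := by positivity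
    have a6 : (0 : ℝ) < (9 * (M : ℝ)) ^ d := by positivity
    have a7 : (N : ℝ) * p * (3 * σ ^ 2) ^ d * 2 < 1 := by
      calc (N : ℝ) * p * (3 * σ ^ 2) ^ d * 2
          ≤ N * (2 * (2 * (9 * (M : ℝ)) ^ d)) * (3 * σ ^ 2) ^ d * 2 := by gcongr
        _ = (9 * (M : ℝ)) ^ d * (3 * σ ^ 2) ^ d * (8 * N) := by ring
        _ < (9 * (M : ℝ)) ^ d * (3 * σ ^ 2) ^ d * 2 ^ d := by gcongr
        _ = 1 := a2
    nlinarith
  obtain ⟨τ, -, hτ⟩ : ∃ τ ∈ (univ : Finset (Fin d → ZMod p)), τ ∉ Bad1 ∪ Bad2 := by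
    apply exists_mem_notMem_of_card_lt_card
    have a1 : ((Bad1 ∪ Bad2).card : ℝ) ≤ Bad1.card + Bad2.card := by
      exact_mod_cast card_union_le _ _
    have a2 : ((Bad1 ∪ Bad2).card : ℝ) < p ^ d := by linarith
    rw [card_univ, Fintype.card_fun, ZMod.card, Fintype.card_fin]
    exact_mod_cast a2
  rw [mem_union, not_or] at hτ
  refine ⟨p, d, fun j => (j : ℕ) * p + (τ j).val * N, hp.pos, by rw [hd]; nlinarith, hd0, ?_, ?_⟩
  · intro a ha hdiv
    by_contra hlt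
    push Not at hlt
    refine hτ.1 (mem_biUnion.2 ⟨a, mem_filter.2 ⟨mem_filter.2 ⟨Fintype.mem_piFinset.2 fun j => ?_,
      hlt.le⟩, ha⟩, mem_filter.2 ⟨mem_univ _, ?_⟩⟩)
    · have := single_le_sum (f := fun j => |a j|) (fun j _ => abs_nonneg _) (mem_univ j)
      exact mem_Icc.2 (abs_le.1 (by linarith))
    · have b1 := (ZMod.intCast_zmod_eq_zero_iff_dvd _ _).2 hdiv
      push_cast at b1
      simp only [ZMod.natCast_self, mul_zero, zero_add, ZMod.natCast_val, ZMod.cast_id', id,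
        ← mul_assoc, ← sum_mul] at b1
      refine (mul_eq_zero.1 b1).resolve_right fun h => ?_
      have := Nat.le_of_dvd hN ((ZMod.natCast_eq_zero_iff _ _).1 h)
      omega
  · intro r hr
    have e : ∀ j : Fin d, ex (r * (((j : ℕ) * p + (τ j).val * N : ℤ) : ℝ) / (N * p : ℕ)) =
        ZMod.stdAddChar ((r : ZMod N) * ((j : ℕ) : ZMod N)) * ZMod.stdAddChar ((r : ZMod p) * τ j) := by
      intro j
      have e1 : (r : ZMod N) * ((j : ℕ) : ZMod N) = ((r * (j : ℕ) : ℤ) : ZMod N) := by push_cast; rfl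
      have e2 : (r : ZMod p) * τ j = ((r * (τ j).val : ℤ) : ZMod p) := by simp
      rw [e1, e2, ZMod.stdAddChar_coe, ZMod.stdAddChar_coe, ← Complex.exp_add, ex]
      congr 1
      have n1 : (N : ℂ) ≠ 0 := by exact_mod_cast hN.ne'
      have n2 : (p : ℂ) ≠ 0 := by exact_mod_cast hp.pos.ne'
      push_cast
      field_simp
    simp only [e]
    have σ6 : (d : ℝ) / (3 * (54 * M) ^ 3) = d / 3 * (σ ^ 3) ^ 2 := by
      rw [show (σ ^ 3) ^ 2 = (σ ^ 2) ^ 3 by ring, σ2]; field_simp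
    rw [σ6]
    by_cases hc : (r : ZMod p) = 0
    · have hu : (r : ZMod N) ≠ 0 := by
        intro hu
        apply hr
        push_cast
        refine IsCoprime.mul_dvd ?_ ((ZMod.intCast_zmod_eq_zero_iff_dvd _ _).1 hu)
          ((ZMod.intCast_zmod_eq_zero_iff_dvd _ _).1 hc)
        rw [Nat.isCoprime_iff_coprime]
        exact (Nat.coprime_of_lt_prime hN.ne' (by omega) hp).symm
      simp only [hc, zero_mul, AddChar.map_zero_eq_one, mul_one]
      set ζ := ZMod.stdAddChar (r : ZMod N) with hζ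
      have e3 : ∀ j : ℕ, ZMod.stdAddChar ((r : ZMod N) * (j : ZMod N)) = ζ ^ j := by
        intro j; rw [hζ, ← AddChar.map_nsmul_eq_pow, nsmul_eq_mul, mul_comm]
      have z1 : ζ ≠ 1 := fun h => hu (ZMod.injective_stdAddChar (by
        rw [AddChar.map_zero_eq_one]; exact h))
      have z2 : ζ ^ d = 1 := by rw [← e3, hd]; simp
      have z3 : ∑ j : Fin d, ζ ^ (j : ℕ) = 0 := by
        rw [Fin.sum_univ_eq_sum_range (fun j => ζ ^ j), geom_sum_eq z1, z2]; simp
      have z4 : ∀ j : ℕ, ‖ζ ^ j - 1‖ ^ 2 = 2 - 2 * (ζ ^ j).re := by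
        intro j
        have : ‖ζ ^ j‖ = 1 := by rw [← e3]; exact AddChar.norm_apply _ _
        have h2 := Complex.sq_norm (ζ ^ j)
        rw [this, Complex.normSq_apply] at h2
        rw [Complex.sq_norm, Complex.normSq_apply]
        simp only [Complex.sub_re, Complex.one_re, Complex.sub_im, Complex.one_im]
        nlinarith
      simp only [e3, z4, sum_sub_distrib, ← mul_sum, ← Complex.re_sum, z3]
      simp only [sum_const, card_univ, Fintype.card_fin, nsmul_eq_mul, Complex.zero_re]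
      have : (σ ^ 3) ^ 2 ≤ 1 := pow_le_one₀ (by positivity) (pow_le_one₀ σ0.le σ1)
      have : (0 : ℝ) ≤ d := by positivity
      nlinarith
    · have b1 : d < 3 * (univ.filter (fun j => τ j ∉ Bj r r j)).card := by
        by_contra hle
        exact hτ.2 (mem_biUnion.2 ⟨((r : ZMod N), (r : ZMod p)), mem_product.2 ⟨mem_univ _,
          mem_filter.2 ⟨mem_univ _, hc⟩⟩, mem_filter.2 ⟨mem_univ _, not_lt.1 hle⟩⟩)
      have b2 : (d : ℝ) < 3 * (univ.filter (fun j => τ j ∉ Bj r r j)).card := by exact_mod_cast b1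
      have b3 := card_nsmul_le_sum (univ.filter (fun j => τ j ∉ Bj r r j))
        (fun j : Fin d => ‖ZMod.stdAddChar ((r : ZMod N) * ((j : ℕ) : ZMod N)) *
          ZMod.stdAddChar ((r : ZMod p) * τ j) - 1‖ ^ 2) ((σ ^ 3) ^ 2) (fun j hj => by
            have := (mem_filter.1 hj).2
            simp only [hBj, mem_filter, mem_univ, true_and, not_le] at this
            exact pow_le_pow_left₀ (by positivity) this.le 2)
      rw [nsmul_eq_mul] at b3
      refine le_trans ?_ (b3.trans (sum_le_sum_of_subset_of_nonneg (filter_subset _ _)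
        fun _ _ _ => by positivity))
      exact mul_le_mul_of_nonneg_right (by linarith) (by positivity)

end Pool.Agent.H.MP_9152e2_an
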