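import Mathlib
import Pool.Agent.H.MP_9152e2_an.Step

set_option autoImplicit false

open Finset MeasureTheory
open scoped ENNReal

namespace Pool.Agent.H.MP_9152e2_an

/-- a positive probability weight on the integers with log-Lipschitz constant `δ` -/
def Law (r : ℤ → ℝ) (δ : ℝ) : Prop :=
  (∀ k, 0 < r k) ∧ HasSum r 1 ∧ ∀ k a : ℤ, r (k + a) ≤ Real.exp (δ * |(a : ℝ)|) * r k

lemma gw_shift {β δ : ℝ} (h0 : 0 ≤ β) (h : β ≤ δ) (k a : ℤ) :
    gw β (k + a) ≤ Real.exp (δ * |(a : ℝ)|) * gw β k := by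
  rw [gw, gw, ← Real.exp_add, Real.exp_le_exp]
  have h1 : |(k : ℝ)| ≤ |((k + a : ℤ) : ℝ)| + |(a : ℝ)| := by
    push_cast
    have := abs_sub ((k : ℝ) + a) a
    simpa using this
  nlinarith [abs_nonneg (a : ℝ), mul_le_mul_of_nonneg_left h1 h0,
    mul_le_mul_of_nonneg_right h (abs_nonneg (a : ℝ))]

lemma geo_law {β : ℝ} (h0 : 0 < β) (h1 : β ≤ 1) : ∃ c : ℝ, β / 3 ≤ c ∧ c ≤ β ∧
    HasSum (fun k => c * gw β k) 1 ∧
    ∃ E, E ≤ 10 / β ∧ HasSum (fun k : ℤ => |(k : ℝ)| * (c * gw β k)) E := by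
  obtain ⟨Z, hZ, z1, z2⟩ := gw_hasSum h0
  obtain ⟨Z', hZ', -, z3⟩ := gw_hasSum (half_pos h0)
  have hb : 1 ≤ 1 / β := by rw [le_div_iff₀ h0]; linarith
  have Z0 : 0 < Z := by linarith
  have c1 : Z⁻¹ ≤ β := by
    rw [inv_le_comm₀ Z0 h0, ← one_div]; exact z1
  have bd : ∀ k : ℤ, |(k : ℝ)| * (Z⁻¹ * gw β k) ≤ 2 * gw (β / 2) k := by
    intro k
    have a1 : β / 2 * |(k : ℝ)| ≤ Real.exp (β / 2 * |(k : ℝ)|) := by
      linarith [Real.add_one_le_exp (β / 2 * |(k : ℝ)|)]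
    have a2 : Real.exp (β / 2 * |(k : ℝ)|) * gw β k = gw (β / 2) k := by
      rw [gw, gw, ← Real.exp_add]; congr 1; ring
    have a3 := gw_pos β k
    have a4 := mul_le_mul_of_nonneg_right a1 a3.le
    have a5 := mul_le_mul_of_nonneg_right c1 (mul_nonneg (abs_nonneg (k : ℝ)) a3.le)
    nlinarith
  have sm : Summable (fun k : ℤ => |(k : ℝ)| * (Z⁻¹ * gw β k)) :=
    Summable.of_nonneg_of_le (fun k => by have := gw_pos β k; positivity) bd
      (hZ'.summable.mul_left 2)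
  refine ⟨Z⁻¹, ?_, c1, ?_, _, ?_, sm.hasSum⟩
  · rw [le_inv_comm₀ (by positivity) Z0, inv_div]
    have : 3 / β = 1 / β + 2 / β := by ring
    linarith
  · simpa [inv_mul_cancel₀ Z0.ne'] using hZ.mul_left Z⁻¹
  · have := hasSum_le bd sm.hasSum (hZ'.mul_left 2)
    have e1 : 2 / (β / 2) = 4 * (1 / β) := by field_simp; ring
    have e2 : 10 / β = 10 * (1 / β) := by ring
    linarith

lemma law_exists {δ : ℝ} (h0 : 0 < δ) (h1 : δ ≤ 1) (m : ℕ) (hm : 1 ≤ m) : ∃ r : ℤ → ℝ,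
    Law r δ ∧ (∀ k, r k ≤ δ) ∧
    (∃ E, E ≤ 120 * m / δ ∧ HasSum (fun k : ℤ => |(k : ℝ)| * r k) E) ∧
    ∃ T₁ T₂ : Set ℤ, 3 / 8 ≤ ∑' k, T₁.indicator r k ∧ 3 / 8 ≤ ∑' k, T₂.indicator r k ∧
      ∀ a ∈ T₁, ∀ b ∈ T₂, Real.exp (-40) / 6 * m * r b ≤ r a := by
  have hm' : (1 : ℝ) ≤ m := by exact_mod_cast hm
  obtain ⟨β, hβ⟩ : ∃ β : ℝ, β = δ / (12 * m) := ⟨_, rfl⟩
  have β0 : 0 < β := by rw [hβ]; positivity
  have βm : β * (12 * m) = δ := by rw [hβ]; field_simp
  have β1 : β ≤ δ := by nlinarith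
  obtain ⟨c, c1, c2, s1, E, e1, e2⟩ := geo_law h0 h1
  obtain ⟨c', c1', c2', s1', E', e1', e2'⟩ := geo_law β0 (β1.trans h1)
  have c0 : 0 < c := by linarith
  have c0' : 0 < c' := by linarith
  have g1 : ∀ (b : ℝ) (k : ℤ), 0 ≤ b → gw b k ≤ 1 := fun b k hb => by
    rw [gw, Real.exp_le_one_iff]; nlinarith [abs_nonneg (k : ℝ)]
  set r : ℤ → ℝ := fun k => 1 / 2 * (c * gw δ k) + 1 / 2 * (c' * gw β k) with hr
  have r0 : ∀ k, 0 < r k := fun k => by
    have := gw_pos δ k; have := gw_pos β k; simp only [hr]; positivity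
  have rs : HasSum r 1 := by
    have := (s1.mul_left (1 / 2)).add (s1'.mul_left (1 / 2))
    norm_num at this ⊢
    exact this
  have si : ∀ T : Set ℤ, Summable (T.indicator r) := fun T => rs.summable.indicator T
  refine ⟨r, ⟨r0, rs, fun k a => ?_⟩, fun k => ?_, ⟨1 / 2 * E + 1 / 2 * E', ?_, ?_⟩,
    {k | δ * |(k : ℝ)| ≤ 40}, {k | m < δ * |(k : ℝ)|}, ?_, ?_, fun a ha b hb => ?_⟩
  · have a1 := mul_le_mul_of_nonneg_left (gw_shift h0.le le_rfl k a) c0.le
    have a2 := mul_le_mul_of_nonneg_left (gw_shift β0.le β1 k a) c0'.le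
    simp only [hr]
    nlinarith
  · have a1 := mul_le_mul_of_nonneg_left (g1 δ k h0.le) c0.le
    have a2 := mul_le_mul_of_nonneg_left (g1 β k β0.le) c0'.le
    simp only [hr]
    linarith
  · have a1 : 10 / δ ≤ 10 / β := div_le_div_of_nonneg_left (by norm_num) β0 β1
    have a2 : 10 / β = 120 * m / δ := by rw [hβ]; field_simp; norm_num
    linarith
  · refine ((e2.mul_left (1 / 2)).add (e2'.mul_left (1 / 2))).congr_fun fun k => ?_
    simp only [hr]; ring
  · have a1 := (s1.mul_left (1 / 2)).sub (e2.mul_left (δ / 80))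
    have a2 := hasSum_le (fun k => ?_) a1 (si {k | δ * |(k : ℝ)| ≤ 40}).hasSum
    · have a3 : δ / 80 * E ≤ δ / 80 * (10 / δ) := mul_le_mul_of_nonneg_left e1 (by positivity)
      have a4 : δ / 80 * (10 / δ) = 1 / 8 := by field_simp; norm_num
      linarith
    · have b1 : 0 < c * gw δ k := mul_pos c0 (gw_pos _ _)
      have b2 : 0 < c' * gw β k := mul_pos c0' (gw_pos _ _)
      have b3 : 0 ≤ δ * |(k : ℝ)| := by positivity
      by_cases hk : δ * |(k : ℝ)| ≤ 40
      · rw [Set.indicator_of_mem (show k ∈ {k : ℤ | δ * |(k : ℝ)| ≤ 40} from hk)]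
        simp only [hr]
        nlinarith
      · rw [Set.indicator_of_notMem (show k ∉ {k : ℤ | δ * |(k : ℝ)| ≤ 40} from hk)]
        push Not at hk
        nlinarith
  · set R := ⌊m / δ⌋₊ with hR
    have a0 : HasSum (fun k : ℤ => if k ∈ Icc (-(R : ℤ)) R then β / 2 else 0)
        (∑ k ∈ Icc (-(R : ℤ)) R, if k ∈ Icc (-(R : ℤ)) R then β / 2 else 0) :=
      hasSum_sum_of_ne_finset_zero fun k hk => if_neg hk
    rw [sum_congr rfl (fun k hk => if_pos hk), sum_const, Int.card_Icc,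
      show ((R : ℤ) + 1 - -R).toNat = 2 * R + 1 by omega, nsmul_eq_mul] at a0
    have a1 := (s1'.mul_left (1 / 2)).sub a0
    have a2 := hasSum_le (fun k => ?_) a1 (si {k | m < δ * |(k : ℝ)|}).hasSum
    · have a3 : (R : ℝ) ≤ m / δ := Nat.floor_le (by positivity)
      rw [le_div_iff₀ h0] at a3
      push_cast at a2
      have a4 : (R : ℝ) * β * 12 ≤ 1 := by
        have : (R : ℝ) * β * 12 * m ≤ 1 * m := by nlinarith
        exact le_of_mul_le_mul_right this (by linarith)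
      have a5 : β * 12 ≤ 1 := by nlinarith
      linarith
    · have b1 : 0 < c * gw δ k := mul_pos c0 (gw_pos _ _)
      have b2 : c' * gw β k ≤ β := by nlinarith [g1 β k β0.le]
      by_cases hk : m < δ * |(k : ℝ)|
      · rw [Set.indicator_of_mem (show k ∈ {k : ℤ | m < δ * |(k : ℝ)|} from hk)]
        simp only [hr]
        split_ifs <;> linarith
      · rw [Set.indicator_of_notMem (show k ∉ {k : ℤ | m < δ * |(k : ℝ)|} from hk), if_pos]
        · linarith
        · push Not at hk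
          have b3 : k.natAbs ≤ R := by
            rw [hR]; apply Nat.le_floor; rw [le_div_iff₀ h0]; simpa [mul_comm] using hk
          rw [mem_Icc]; omega
  · have ha' : δ * |(a : ℝ)| ≤ 40 := ha
    have hb' : m < δ * |(b : ℝ)| := hb
    have a1 : Real.exp (-40) ≤ gw δ a := Real.exp_le_exp.2 (by linarith)
    have a2 : gw δ b * m ≤ 1 := by
      have b1 : gw δ b ≤ Real.exp (-m) := Real.exp_le_exp.2 (by linarith)
      have b2 : Real.exp (-m) * Real.exp m = 1 := by rw [← Real.exp_add]; simp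
      nlinarith [Real.add_one_le_exp (m : ℝ), Real.exp_pos (-(m : ℝ)), gw_pos δ b]
    have a3 : m * r b ≤ δ := by
      have b1 : c * (gw δ b * m) ≤ δ := by nlinarith
      have b2 : c' * gw β b ≤ β := by nlinarith [g1 β b β0.le]
      have b3 := mul_le_mul_of_nonneg_left b2 (show (0 : ℝ) ≤ m by linarith)
      simp only [hr]
      nlinarith
    have a4 : Real.exp (-40) / 6 * δ ≤ r a := by
      have b1 : δ / 3 * Real.exp (-40) ≤ c * gw δ a :=
        mul_le_mul c1 a1 (Real.exp_pos _).le c0.le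
      have b2 : 0 < c' * gw β a := mul_pos c0' (gw_pos _ _)
      simp only [hr]
      linarith
    have := mul_le_mul_of_nonneg_left a3 (show 0 ≤ Real.exp (-40) / 6 by positivity)
    linarith

/-- the measure on the integers with weights `r` -/
noncomputable def mz (r : ℤ → ℝ) : Measure ℤ :=
  Measure.sum fun k => ENNReal.ofReal (r k) • Measure.dirac k

lemma mz_single (r : ℤ → ℝ) (k : ℤ) : mz r {k} = ENNReal.ofReal (r k) := by
  rw [mz, Measure.sum_apply _ (measurableSet_singleton k), tsum_eq_single k]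
  · simp
  · intro b hb; simp [hb]

lemma mz_apply {r : ℤ → ℝ} (h0 : ∀ k, 0 ≤ r k) (hs : Summable r) (T : Set ℤ) :
    mz r T = ENNReal.ofReal (∑' k, T.indicator r k) := by
  rw [← Measure.tsum_indicator_apply_singleton _ _ MeasurableSet.of_discrete,
    ENNReal.ofReal_tsum_of_nonneg (fun k => Set.indicator_nonneg (fun k _ => h0 k) k)
      (hs.indicator T)]
  refine tsum_congr fun k => ?_
  by_cases hk : k ∈ T <;> simp [hk, mz_single]

lemma mz_univ {r : ℤ → ℝ} (h0 : ∀ k, 0 ≤ r k) {a : ℝ} (hs : HasSum r a) :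
    mz r Set.univ = ENNReal.ofReal a := by
  rw [mz_apply h0 hs.summable, Set.indicator_univ, hs.tsum_eq]

lemma Law.prob {r : ℤ → ℝ} {δ : ℝ} (h : Law r δ) : IsProbabilityMeasure (mz r) :=
  ⟨by rw [mz_univ (fun k => (h.1 k).le) h.2.1]; simp⟩

lemma Law.shift {r : ℤ → ℝ} {δ : ℝ} (h : Law r δ) (a : ℤ) : Law (fun k => r (k - a)) δ :=
  ⟨fun _ => h.1 _, (Equiv.subRight a).hasSum_iff.2 h.2.1, fun k b => by
    have := h.2.2 (k - a) b
    rwa [sub_add_eq_add_sub] at this⟩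

lemma mz_map (r : ℤ → ℝ) (a : ℤ) : (mz r).map (fun k => k + a) = mz (fun k => r (k - a)) := by
  refine Measure.ext_of_singleton fun k => ?_
  rw [Measure.map_apply Measurable.of_discrete (measurableSet_singleton k), mz_single,
    ← mz_single]
  congr 1
  ext x
  simp only [Set.mem_preimage, Set.mem_singleton_iff]
  omega

lemma Law.affinity {r : ℤ → ℝ} {δ : ℝ} (hδ : 0 ≤ δ) (h : Law r δ) (a : ℤ) :
    mz (fun k => Real.sqrt (r k * r (k - a))) Set.univ ≤ 1 ∧
    1 ≤ mz (fun k => Real.sqrt (r k * r (k - a))) Set.univ +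
      ENNReal.ofReal ((δ * |(a : ℝ)|) ^ 2) := by
  have s2 := (h.shift a).2.1
  have id : ∀ k, Real.sqrt (r k * r (k - a)) = 1 / 2 * r k + 1 / 2 * r (k - a) -
      1 / 2 * (Real.sqrt (r k) - Real.sqrt (r (k - a))) ^ 2 := by
    intro k
    rw [Real.sqrt_mul (h.1 k).le, sub_sq, Real.sq_sqrt (h.1 _).le, Real.sq_sqrt (h.1 _).le]
    ring
  have s3 := (h.2.1.mul_left (1 / 2)).add (s2.mul_left (1 / 2))
  have up : ∀ k, Real.sqrt (r k * r (k - a)) ≤ 1 / 2 * r k + 1 / 2 * r (k - a) := fun k => by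
    rw [id]; nlinarith [sq_nonneg (Real.sqrt (r k) - Real.sqrt (r (k - a)))]
  have sm : Summable (fun k => Real.sqrt (r k * r (k - a))) :=
    Summable.of_nonneg_of_le (fun _ => Real.sqrt_nonneg _) up s3.summable
  rw [mz_univ (fun _ => Real.sqrt_nonneg _) sm.hasSum]
  have t0 : 0 ≤ ∑' k, Real.sqrt (r k * r (k - a)) := tsum_nonneg fun _ => Real.sqrt_nonneg _
  refine ⟨ENNReal.ofReal_le_one.2 (by linarith [hasSum_le up sm.hasSum s3]), ?_⟩
  rw [← ENNReal.ofReal_add t0 (sq_nonneg _), ENNReal.one_le_ofReal]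
  set y := δ * |(a : ℝ)| with hy
  have y0 : 0 ≤ y := by positivity
  rcases le_or_gt 1 y with h1 | h1
  · nlinarith
  have lo : ∀ k, 1 / 2 * r k + 1 / 2 * r (k - a) - y ^ 2 * r k ≤
      Real.sqrt (r k * r (k - a)) := by
    intro k
    have e : Real.sqrt (Real.exp y) = Real.exp (y / 2) := (Real.exp_half y).symm
    have a1 : Real.sqrt (r (k - a)) ≤ Real.exp (y / 2) * Real.sqrt (r k) := by
      rw [← e, ← Real.sqrt_mul (Real.exp_pos _).le]
      apply Real.sqrt_le_sqrt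
      have := h.2.2 k (-a)
      simpa [sub_eq_add_neg] using this
    have a2 : Real.sqrt (r k) ≤ Real.exp (y / 2) * Real.sqrt (r (k - a)) := by
      rw [← e, ← Real.sqrt_mul (Real.exp_pos _).le]
      apply Real.sqrt_le_sqrt
      have := h.2.2 (k - a) a
      simpa using this
    have a3 : Real.exp (y / 2) ≤ 1 + y := by
      have := Real.abs_exp_sub_one_le (x := y / 2) (by rw [abs_of_nonneg] <;> linarith)
      rw [abs_of_nonneg (show 0 ≤ y / 2 by linarith)] at this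
      linarith [le_abs_self (Real.exp (y / 2) - 1)]
    have u0 := Real.sqrt_nonneg (r k)
    have v0 := Real.sqrt_nonneg (r (k - a))
    have a4 : |Real.sqrt (r k) - Real.sqrt (r (k - a))| ≤ y * Real.sqrt (r k) := by
      rw [abs_le]
      constructor
      · nlinarith
      · rcases le_total (Real.sqrt (r k)) (Real.sqrt (r (k - a))) with h2 | h2
        · nlinarith
        · nlinarith
    have a5 := pow_le_pow_left₀ (abs_nonneg _) a4 2
    rw [sq_abs, mul_pow, Real.sq_sqrt (h.1 k).le] at a5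
    rw [id]
    nlinarith [h.1 k, sq_nonneg y]
  have := hasSum_le lo (s3.sub (h.2.1.mul_left (y ^ 2))) sm.hasSum
  linarith

end Pool.Agent.H.MP_9152e2_an
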