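import Mathlib
import Pool.Agent.H.MP_9152e2_an.Law

set_option autoImplicit false

open Finset MeasureTheory Function Measure
open scoped ENNReal

namespace Pool.Agent.H.MP_9152e2_an

variable {I : Type} [DecidableEq I]

lemma mix (μ μ' : I → Measure ℤ) [∀ i, IsProbabilityMeasure (μ i)]
    [∀ i, IsProbabilityMeasure (μ' i)] (T : Finset I) (h : ∀ i ∉ T, μ' i = μ i) :
    ((Measure.pi fun i : T => μ' i).prod (infinitePi μ)).map
      (fun p : (T → ℤ) × (I → ℤ) => updateFinset p.2 T p.1) = infinitePi μ' := by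
  refine eq_infinitePi _ fun s t ht => ?_
  have hm : Measurable (fun p : (T → ℤ) × (I → ℤ) => updateFinset p.2 T p.1) :=
    measurable_updateFinset'.comp measurable_swap
  rw [Measure.map_apply hm (.pi s.countable_toSet fun _ _ => ht _)]
  have e : (fun p : (T → ℤ) × (I → ℤ) => updateFinset p.2 T p.1) ⁻¹' (s : Set I).pi t =
      (Set.univ.pi fun i : T => if i.1 ∈ s then t i else Set.univ) ×ˢ
        ((s.filter (· ∉ T) : Finset I) : Set I).pi t := by
    ext ⟨z, y⟩
    simp only [Set.mem_preimage, Set.mem_pi, mem_coe, Set.mem_prod, Set.mem_univ, true_imp_iff,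
      mem_filter, updateFinset]
    constructor
    · intro H
      refine ⟨fun i => ?_, fun i hi => ?_⟩
      · split_ifs with h1
        · simpa [i.2] using H i h1
        · trivial
      · simpa [hi.2] using H i hi.1
    · rintro ⟨H1, H2⟩ i hi
      split_ifs with h1
      · simpa [hi] using H1 ⟨i, h1⟩
      · exact H2 i ⟨hi, h1⟩
  rw [e, Measure.prod_prod, Measure.pi_pi, infinitePi_pi _ fun i _ => ht i,
    prod_coe_sort T (fun i => μ' i (if i ∈ s then t i else Set.univ)),
    ← prod_filter_mul_prod_filter_not s (· ∈ T)]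
  congr 1
  · simp only [apply_ite, measure_univ]
    rw [← prod_filter]
    refine prod_congr ?_ fun _ _ => rfl
    ext i; simp [and_comm]
  · exact prod_congr rfl fun i hi => by rw [h i (mem_filter.1 hi).2]

lemma decomp (μ μ' : I → Measure ℤ) [∀ i, IsProbabilityMeasure (μ i)]
    [∀ i, IsProbabilityMeasure (μ' i)] (T : Finset I) (h : ∀ i ∉ T, μ' i = μ i)
    {S : Set (I → ℤ)} (hS : MeasurableSet S) : infinitePi μ' S =
      ∑' z : T → ℤ, infinitePi μ {y | updateFinset y T z ∈ S} * ∏ i : T, μ' i {z i} := by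
  have hm : Measurable (fun p : (T → ℤ) × (I → ℤ) => updateFinset p.2 T p.1) :=
    measurable_updateFinset'.comp measurable_swap
  rw [← mix μ μ' T h, Measure.map_apply hm hS, Measure.prod_apply (hm hS), lintegral_countable']
  refine tsum_congr fun z => ?_
  rw [Measure.pi_singleton]
  rfl

lemma coord (μ : I → Measure ℤ) [∀ i, IsProbabilityMeasure (μ i)] (i : I)
    {S : Set (I → ℤ)} (hS : MeasurableSet S) : infinitePi μ S =
      ∑' k : ℤ, infinitePi μ {y | update y i k ∈ S} * μ i {k} := by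
  rw [decomp μ μ {i} (fun _ _ => rfl) hS,
    ← (Equiv.funUnique ({i} : Finset I) ℤ).symm.tsum_eq]
  refine tsum_congr fun k => ?_
  simp [updateFinset_singleton]

lemma coord_inv (μ : I → Measure ℤ) [∀ i, IsProbabilityMeasure (μ i)] (i : I) (a : ℤ)
    {W : Set (I → ℤ)} (hW : MeasurableSet W) (h : ∀ y k, update y i k ∈ W ↔ y ∈ W) :
    infinitePi μ (W ∩ {y | y i = a}) = infinitePi μ W * μ i {a} := by
  have hm : MeasurableSet {y : I → ℤ | y i = a} :=
    measurableSet_eq_fun (measurable_pi_apply i) measurable_const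
  rw [coord μ i (hW.inter hm), tsum_eq_single a]
  · congr 2; ext y; simp [h]
  · intro b hb; simp [hb]

lemma zero_one (μ : I → Measure ℤ) [∀ i, IsProbabilityMeasure (μ i)]
    {Z : Set (I → ℤ)} (hZ : MeasurableSet Z)
    (h : ∀ y T z, updateFinset y T z ∈ Z ↔ y ∈ Z) :
    infinitePi μ Z = 0 ∨ infinitePi μ Zᶜ = 0 := by
  by_cases h0 : infinitePi μ Z = 0
  · exact Or.inl h0
  right
  classical
  have key : ∀ (s : Finset I) (t : I → Set ℤ) (Y : Set (I → ℤ)), MeasurableSet Y →
      (∀ y T z, updateFinset y T z ∈ Y ↔ y ∈ Y) →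
      infinitePi μ ((s : Set I).pi t ∩ Y) = infinitePi μ Y * ∑' z : s → ℤ,
        (if ∀ i : s, z i ∈ t i then 1 else 0) * ∏ i : s, μ i {z i} := by
    intro s t Y hY hi
    rw [decomp μ μ s (fun _ _ => rfl)
      ((MeasurableSet.pi s.countable_toSet fun _ _ => MeasurableSet.of_discrete).inter hY),
      ← ENNReal.tsum_mul_left]
    refine tsum_congr fun z => ?_
    rw [← mul_assoc]
    congr 1
    split_ifs with hz
    · rw [mul_one]; congr 1; ext y
      simp only [Set.mem_inter_iff, Set.mem_ofPred_eq, hi, Set.mem_pi, mem_coe, and_iff_right_iff_imp]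
      intro _ i hi
      simpa [updateFinset, hi] using hz ⟨i, hi⟩
    · rw [mul_zero]
      refine measure_mono_null (t := ∅) (fun y hy => hz fun i => ?_) measure_empty
      simpa [updateFinset] using hy.1 i i.2
  have e : (infinitePi μ Z)⁻¹ • (infinitePi μ).restrict Z = infinitePi μ := by
    refine eq_infinitePi _ fun s t ht => ?_
    have k2 := key s t Set.univ MeasurableSet.univ (by simp)
    rw [Set.inter_univ, measure_univ, one_mul, infinitePi_pi _ fun i _ => ht i] at k2
    rw [Measure.smul_apply, Measure.restrict_apply (.pi s.countable_toSet fun _ _ => ht _),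
      key s t Z hZ h, ← k2, smul_eq_mul, ← mul_assoc,
      ENNReal.inv_mul_cancel h0 (measure_ne_top _ _), one_mul]
  rw [← e, Measure.smul_apply, Measure.restrict_apply hZ.compl]
  simp

lemma one_le_prod_add (T : Finset I) (α y : I → ℝ≥0∞) (h1 : ∀ i, α i ≤ 1)
    (h2 : ∀ i, 1 ≤ α i + y i) : 1 ≤ ∏ i ∈ T, α i + ∑ i ∈ T, y i := by
  induction T using Finset.induction_on with
  | empty => simp
  | insert a s ha ih =>
    rw [prod_insert ha, sum_insert ha]
    have p1 : ∏ i ∈ s, α i ≤ 1 := prod_le_one' fun i _ => h1 i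
    calc 1 ≤ ∏ i ∈ s, α i + ∑ i ∈ s, y i := ih
      _ ≤ (α a + y a) * ∏ i ∈ s, α i + ∑ i ∈ s, y i := by
          gcongr; exact le_mul_of_one_le_left' (h2 a)
      _ ≤ _ := by
          rw [add_mul, add_assoc]
          gcongr
          exact mul_le_of_le_one_right' p1

variable {r : I → ℤ → ℝ} {δ : I → ℝ}

/-- the product measure -/
noncomputable def PP (r : I → ℤ → ℝ) : Measure (I → ℤ) := infinitePi fun i => mz (r i)

omit [DecidableEq I] in
lemma PP_prob (h : ∀ i, Law (r i) (δ i)) : IsProbabilityMeasure (PP r) := by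
  have := fun i => (h i).prob
  rw [PP]; infer_instance

lemma shift_eq (h : ∀ i, Law (r i) (δ i)) (a : I →₀ ℤ) {S : Set (I → ℤ)} (hS : MeasurableSet S) :
    PP r {x | x + a ∈ S} = ∑' z : a.support → ℤ, PP r {y | updateFinset y a.support z ∈ S} *
      ENNReal.ofReal (∏ i : a.support, r i (z i - a i)) := by
  have := fun i => (h i).prob
  have := fun i => ((h i).shift (a i)).prob
  have e := infinitePi_map_pi (fun i => mz (r i)) (f := fun i k => k + a i)
    fun _ => Measurable.of_discrete
  simp only [mz_map] at e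
  have e2 := decomp (fun i => mz (r i)) (fun i => mz fun k => r i (k - a i)) a.support
    (fun i hi => by simp [Finsupp.notMem_support_iff.1 hi]) hS
  rw [← e, Measure.map_apply (by fun_prop) hS] at e2
  simp only [mz_single] at e2
  simp only [ENNReal.ofReal_prod_of_nonneg fun (i : a.support) _ => ((h i).1 _).le]
  exact e2

lemma base_eq (h : ∀ i, Law (r i) (δ i)) (T : Finset I) {S : Set (I → ℤ)}
    (hS : MeasurableSet S) :
    PP r S = ∑' z : T → ℤ, PP r {y | updateFinset y T z ∈ S} *
      ENNReal.ofReal (∏ i : T, r i (z i)) := by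
  have := fun i => (h i).prob
  have e2 := decomp (fun i => mz (r i)) (fun i => mz (r i)) T (fun i hi => rfl) hS
  simp only [mz_single] at e2
  simp only [ENNReal.ofReal_prod_of_nonneg fun (i : T) _ => ((h i).1 _).le]
  exact e2

lemma shift_null (h : ∀ i, Law (r i) (δ i)) (a : I →₀ ℤ) {S : Set (I → ℤ)}
    (hS : MeasurableSet S) (h0 : PP r S = 0) : PP r {x | x + a ∈ S} = 0 := by
  rw [base_eq h a.support hS, ENNReal.tsum_eq_zero] at h0
  rw [shift_eq h a hS, ENNReal.tsum_eq_zero]
  intro z
  rcases mul_eq_zero.1 (h0 z) with h1 | h1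
  · rw [h1, zero_mul]
  · exact absurd (ENNReal.ofReal_eq_zero.1 h1) (not_le.2 (prod_pos fun i _ => (h i).1 _))

lemma shift_le (hδ : ∀ i, 0 ≤ δ i) (h : ∀ i, Law (r i) (δ i)) (a : I →₀ ℤ) {S : Set (I → ℤ)}
    (hS : MeasurableSet S) : PP r {x | x + a ∈ S} ≤ 2 * PP r S +
      4 * ENNReal.ofReal (∑ i ∈ a.support, (a i * δ i) ^ 2) := by
  have := PP_prob h
  have af := fun i => Law.affinity (hδ i) (h i) (a i)
  have fin : ∀ i, IsFiniteMeasure (mz fun k => Real.sqrt (r i k * r i (k - a i))) :=
    fun i => ⟨(af i).1.trans_lt ENNReal.one_lt_top⟩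
  have s1 := shift_eq h a MeasurableSet.univ
  have s2 := base_eq h a.support MeasurableSet.univ
  simp only [Set.mem_univ, Set.ofPred_true, measure_univ, one_mul] at s1 s2
  have s3 : ∏ i ∈ a.support, (mz fun k => Real.sqrt (r i k * r i (k - a i))) Set.univ =
      ∑' z : a.support → ℤ, ENNReal.ofReal (Real.sqrt ((∏ i : a.support, r i (z i)) *
        ∏ i : a.support, r i (z i - a i))) := by
    rw [← prod_coe_sort, ← Measure.pi_univ, ← lintegral_one, lintegral_countable']
    refine tsum_congr fun z => ?_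
    rw [one_mul, Measure.pi_singleton, ← prod_mul_distrib,
      Real.sqrt_prod _ fun (i : a.support) _ => (mul_pos ((h i).1 _) ((h i).1 _)).le,
      ENNReal.ofReal_prod_of_nonneg fun _ _ => Real.sqrt_nonneg _]
    simp only [mz_single]
  have s4 := one_le_prod_add a.support _ _ (fun i => (af i).1) fun i => (af i).2
  rw [← ENNReal.ofReal_sum_of_nonneg fun _ _ => sq_nonneg _, s3] at s4
  have s5 : ∑ i ∈ a.support, (δ i * |(a i : ℝ)|) ^ 2 = ∑ i ∈ a.support, (a i * δ i) ^ 2 :=
    sum_congr rfl fun i _ => by rw [mul_pow, sq_abs]; ring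
  rw [s5] at s4
  have pt : ∀ (w : ℝ≥0∞) (u v : ℝ), w ≤ 1 → 0 ≤ u → 0 ≤ v →
      w * ENNReal.ofReal v + 4 * ENNReal.ofReal (Real.sqrt (u * v)) ≤
        2 * (w * ENNReal.ofReal u) + 2 * ENNReal.ofReal u + 2 * ENNReal.ofReal v := by
    intro w u v hw hu hv
    lift w to NNReal using ne_top_of_le_ne_top ENNReal.one_ne_top hw
    have hw' : (w : ℝ) ≤ 1 := by exact_mod_cast hw
    have w0 := w.coe_nonneg
    rw [← ENNReal.ofReal_coe_nnreal, ← ENNReal.ofReal_ofNat 4, ← ENNReal.ofReal_ofNat 2]
    rw [← ENNReal.ofReal_mul w0, ← ENNReal.ofReal_mul w0, ← ENNReal.ofReal_mul (by norm_num),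
      ← ENNReal.ofReal_mul (by norm_num), ← ENNReal.ofReal_mul (by norm_num),
      ← ENNReal.ofReal_mul (by norm_num), ← ENNReal.ofReal_add (by positivity) (by positivity),
      ← ENNReal.ofReal_add (by positivity) (by positivity),
      ← ENNReal.ofReal_add (by positivity) (by positivity)]
    apply ENNReal.ofReal_le_ofReal
    rw [Real.sqrt_mul hu]
    have a1 := Real.sq_sqrt hu
    have a2 := Real.sq_sqrt hv
    rcases le_total v (2 * u) with h1 | h1
    · nlinarith [sq_nonneg (Real.sqrt u - Real.sqrt v), mul_nonneg w0 (sub_nonneg.2 h1)]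
    · nlinarith [sq_nonneg (2 * Real.sqrt u - Real.sqrt v),
        mul_nonneg (sub_nonneg.2 hw') (sub_nonneg.2 h1)]
  have s6 := ENNReal.tsum_le_tsum fun z : a.support → ℤ =>
    pt (PP r {y | updateFinset y a.support z ∈ S}) (∏ i : a.support, r i (z i))
      (∏ i : a.support, r i (z i - a i)) prob_le_one (prod_nonneg fun i _ => ((h i).1 _).le)
      (prod_nonneg fun i _ => ((h i).1 _).le)
  simp only [ENNReal.tsum_add, ENNReal.tsum_mul_left] at s6
  rw [← s1, ← s2, ← shift_eq h a hS, ← base_eq h a.support hS] at s6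
  refine (ENNReal.add_le_add_iff_right (a := 4 * 1) (by norm_num)).1 ?_
  calc _ ≤ _ := add_le_add le_rfl (mul_le_mul_right s4 4)
    _ ≤ _ := by
      rw [mul_add, ← add_assoc]
      refine (add_le_add s6 le_rfl).trans (le_of_eq ?_)
      ring

omit [DecidableEq I] in
lemma point_le (h : ∀ i, Law (r i) (δ i)) (x : I → ℤ) (i : I) :
    PP r {x} ≤ ENNReal.ofReal (r i (x i)) := by
  have := fun i => (h i).prob
  rw [← mz_single, ← infinitePi_map_eval (fun i => mz (r i)) i,
    Measure.map_apply (measurable_pi_apply i) (measurableSet_singleton _)]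
  refine measure_mono ?_
  rintro _ rfl
  rfl

omit [DecidableEq I] in
lemma moment [Countable I] (h : ∀ i, Law (r i) (δ i)) (c E : I → ℝ) (hc : ∀ i, 0 ≤ c i)
    (hE : ∀ i, HasSum (fun k : ℤ => |(k : ℝ)| * r i k) (E i)) :
    ∫⁻ x, ∑' i, ENNReal.ofReal |x i * c i| ∂PP r = ∑' i, ENNReal.ofReal (c i * E i) := by
  have := fun i => (h i).prob
  have m : ∀ i, Measurable fun k : ℤ => ENNReal.ofReal |k * c i| := fun _ => .of_discrete
  rw [lintegral_tsum (f := fun i (x : I → ℤ) => ENNReal.ofReal |x i * c i|)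
    fun i => ((m i).comp (measurable_pi_apply i)).aemeasurable]
  refine tsum_congr fun i => ?_
  rw [PP, (measurePreserving_eval_infinitePi (fun i => mz (r i)) i).lintegral_comp (m i),
    lintegral_countable', ← ((hE i).mul_left (c i)).tsum_eq,
    ENNReal.ofReal_tsum_of_nonneg (fun k => by have := (h i).1 k; have := hc i; positivity)
      ((hE i).mul_left (c i)).summable]
  refine tsum_congr fun k => ?_
  rw [mz_single, ← ENNReal.ofReal_mul (abs_nonneg _), abs_mul, abs_of_nonneg (hc i)]
  congr 1; ring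

end Pool.Agent.H.MP_9152e2_an
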