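import Mathlib
import Pool.Agent.H.MP_9152e2_an.Prod

set_option autoImplicit false

open Finset MeasureTheory Function Measure Filter Topology
open scoped ENNReal

namespace Pool.Agent.H.MP_9152e2_an

variable {I : Type} [DecidableEq I] {r : I → ℤ → ℝ} {δ : I → ℝ}
  {G X : Type} [NormedAddCommGroup G] [NormedAddCommGroup X] [MeasurableSpace X] [BorelSpace X]
  {ι : G →+ X} {ψ : (I →₀ ℤ) →+ G} {F : (I → ℤ) → X} {Ω : Set (I → ℤ)}

omit [DecidableEq I] in
lemma tr_eq (hι : Continuous ι) (hF : Measurable F) (h1 : PP r Ωᶜ = 0)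
    (hadd : ∀ x ∈ Ω, ∀ a : I →₀ ℤ, x + a ∈ Ω ∧ F (x + a) = ι (ψ a) + F x) (a : I →₀ ℤ)
    {S : Set X} (hS : MeasurableSet S) :
    (PP r).map F ((fun x => ι (ψ a) + x) ⁻¹' S) = PP r {x | x + a ∈ F ⁻¹' S} := by
  rw [Measure.map_apply hF ((measurable_const_add _) hS)]
  refine measure_congr ?_
  filter_upwards [(mem_ae_iff.2 h1 : ∀ᵐ x ∂PP r, x ∈ Ω)] with x hx
  change (ι (ψ a) + F x ∈ S) = (F (x + a) ∈ S)
  rw [(hadd x hx a).2]

lemma quasi (hδ : ∀ i, 0 ≤ δ i) (h : ∀ i, Law (r i) (δ i)) (hι : Continuous ι)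
    (hψ : DenseRange ψ) (hn : ∀ a η, ‖ψ a‖ < η →
      ∃ b, ψ b = ψ a ∧ ∑ i ∈ b.support, (b i * δ i) ^ 2 ≤ η ^ 2)
    (hF : Measurable F) (h1 : PP r Ωᶜ = 0)
    (hadd : ∀ x ∈ Ω, ∀ a : I →₀ ℤ, x + a ∈ Ω ∧ F (x + a) = ι (ψ a) + F x) (g : G)
    {S : Set X} (hS : MeasurableSet S) (h0 : (PP r).map F S = 0) :
    (PP r).map F ((fun x => ι g + x) ⁻¹' S) = 0 := by
  have := PP_prob h
  have op : ∀ (U : Set X) (η : ℝ) (g : G), IsOpen U → ‖g‖ < η →
      (PP r).map F ((fun x => ι g + x) ⁻¹' U) ≤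
        2 * (PP r).map F U + 4 * ENNReal.ofReal (η ^ 2) := by
    intro U η g hU hg
    obtain ⟨u, hu, lim⟩ := mem_closure_iff_seq_limit.1 (hψ g)
    choose a ha using hu
    have mono : Monotone fun N : ℕ => {x : X | ∀ k ≥ N, ι (u k) + x ∈ U ∧ ‖u k‖ < η} :=
      fun N N' hN x hx k hk => hx k (hN.trans hk)
    refine (measure_mono (t := ⋃ N : ℕ, {x : X | ∀ k ≥ N, ι (u k) + x ∈ U ∧ ‖u k‖ < η})
      fun x hx => ?_).trans ?_
    · have e1 := (((hι.tendsto g).comp lim).add_const x).eventually (hU.mem_nhds hx)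
      have e2 := lim.norm.eventually (gt_mem_nhds hg)
      exact Set.mem_iUnion.2 (eventually_atTop.1 (e1.and e2))
    · rw [mono.measure_iUnion]
      refine iSup_le fun N => ?_
      by_cases hN : ‖u N‖ < η
      · rw [← ha] at hN
        obtain ⟨b, hb, hb'⟩ := hn _ _ hN
        refine (measure_mono (t := (fun x => ι (ψ b) + x) ⁻¹' U) fun x hx => ?_).trans ?_
        · rw [hb, ha]; exact (hx N le_rfl).1
        · rw [tr_eq hι hF h1 hadd b hU.measurableSet, Measure.map_apply hF hU.measurableSet]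
          refine (shift_le hδ h b (hF hU.measurableSet)).trans ?_
          gcongr
      · refine (measure_mono (t := ∅) fun x hx => hN (hx N le_rfl).2).trans ?_
        simp
  refine le_antisymm (ENNReal.le_of_forall_pos_le_add fun ε hε _ => ?_) zero_le
  have ε0 : (0 : ℝ) < ε := hε
  obtain ⟨η, η0, η1, η2⟩ : ∃ η : ℝ, 0 < η ∧ η ≤ 1 ∧ 6 * η ≤ ε :=
    ⟨min 1 (ε / 6), by positivity, min_le_left _ _, by linarith [min_le_right 1 ((ε : ℝ) / 6)]⟩
  obtain ⟨a, ha⟩ := hψ.exists_dist_lt g η0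
  have s0 : (PP r).map F ((fun x => ι (ψ a) + x) ⁻¹' S) < ENNReal.ofReal η := by
    rw [tr_eq hι hF h1 hadd a hS, shift_null h a (hF hS) (by rwa [Measure.map_apply hF hS] at h0)]
    exact ENNReal.ofReal_pos.2 η0
  obtain ⟨U, hU, hU1, hU2⟩ := Set.exists_isOpen_lt_of_lt _ _ s0
  rw [dist_eq_norm] at ha
  refine (measure_mono (t := (fun x => ι (g - ψ a) + x) ⁻¹' U) fun x hx => hU ?_).trans
    ((op U η _ hU1 ha).trans ?_)
  · change ι (ψ a) + (ι (g - ψ a) + x) ∈ S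
    rwa [← add_assoc, ← map_add, add_sub_cancel]
  · calc _ ≤ 2 * ENNReal.ofReal η + 4 * ENNReal.ofReal η := by
          gcongr; nlinarith
      _ = ENNReal.ofReal (6 * η) := by
          rw [← add_mul, ENNReal.ofReal_mul (by norm_num)]; norm_num
      _ ≤ _ := by rw [zero_add, ← ENNReal.ofReal_coe_nnreal]; gcongr

lemma ergodic (h : ∀ i, Law (r i) (δ i)) (hF : Measurable F) (hΩ : MeasurableSet Ω)
    (h1 : PP r Ωᶜ = 0)
    (hadd : ∀ x ∈ Ω, ∀ a : I →₀ ℤ, x + a ∈ Ω ∧ F (x + a) = ι (ψ a) + F x)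
    {S : Set X} (hS : MeasurableSet S) (hi : ∀ g, (fun x => ι g + x) ⁻¹' S = S) :
    (PP r).map F S = 0 ∨ (PP r).map F Sᶜ = 0 := by
  have := fun i => (h i).prob
  have k1 : ∀ (y : I → ℤ) (a : I →₀ ℤ), y ∈ F ⁻¹' S ∩ Ω → y + a ∈ F ⁻¹' S ∩ Ω := by
    intro y a hy
    refine ⟨?_, (hadd y hy.2 a).1⟩
    rw [Set.mem_preimage, (hadd y hy.2 a).2]
    have := hy.1
    rwa [← hi (ψ a)] at this
  have k2 := zero_one (fun i => mz (r i)) ((hF hS).inter hΩ) fun y T z => by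
    obtain ⟨a, e⟩ : ∃ a : I →₀ ℤ, updateFinset y T z = y + a :=
      ⟨Finsupp.onFinset T (fun i => updateFinset y T z i - y i)
        fun i hi => by by_contra hT; simp [updateFinset, hT] at hi, by ext i; simp⟩
    rw [e]
    exact ⟨fun hy => by simpa using k1 _ (-a) hy, k1 _ _⟩
  rw [Measure.map_apply hF hS, Measure.map_apply hF hS.compl]
  rcases k2 with k2 | k2
  · left
    refine measure_mono_null (fun x hx => ?_) (measure_union_null k2 h1)
    by_cases hx' : x ∈ Ω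
    · exact Or.inl ⟨hx, hx'⟩
    · exact Or.inr hx'
  · exact Or.inr (measure_mono_null (t := (F ⁻¹' S ∩ Ω)ᶜ) (fun x hx h' => hx h'.1) k2)

omit [DecidableEq I] in
lemma noAtoms [Countable I] (hF : Measurable F) (h1 : PP r Ωᶜ = 0) (h0 : ∀ x, PP r {x} = 0)
    (hf : ∀ x ∈ Ω, ∀ x' ∈ Ω, F x = F x' → ∃ a : I →₀ ℤ, x' = x + a) :
    ∀ y, (PP r).map F {y} = 0 := by
  have : NullSingletonClass (PP r) := ⟨h0⟩
  intro y
  rw [Measure.map_apply hF (measurableSet_singleton y)]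
  have c : (F ⁻¹' {y} ∩ Ω).Countable := by
    rcases (F ⁻¹' {y} ∩ Ω).eq_empty_or_nonempty with e | ⟨x, hx⟩
    · rw [e]; exact Set.countable_empty
    · refine (Set.countable_range fun a : I →₀ ℤ => x + a).mono fun x' hx' => ?_
      obtain ⟨a, ha⟩ := hf x hx.2 x' hx'.2 (hx.1.trans hx'.1.symm)
      exact ⟨a, ha.symm⟩
  refine measure_mono_null (fun x hx => ?_) (measure_union_null (c.measure_zero _) h1)
  by_cases hx' : x ∈ Ω
  · exact Or.inl ⟨hx, hx'⟩
  · exact Or.inr hx'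

lemma typeIII [Countable I] [CompleteSpace X] [SecondCountableTopology X]
    (h : ∀ i, Law (r i) (δ i)) (hF : Measurable F)
    (hadd : ∀ x ∈ Ω, ∀ a : I →₀ ℤ, x + a ∈ Ω ∧ F (x + a) = ι (ψ a) + F x)
    {B : Set (I → ℤ)} (hB : MeasurableSet B) (hBΩ : B ⊆ Ω) (hinj : Set.InjOn F B)
    (hBc : PP r Bᶜ < 3 / 16)
    (hT : ∀ C : ℝ, ∃ (i : I) (T₁ T₂ : Set ℤ), 3 / 8 ≤ mz (r i) T₁ ∧ 3 / 8 ≤ mz (r i) T₂ ∧
      ∀ a ∈ T₁, ∀ b ∈ T₂, C * r i b ≤ r i a)
    (ν : Measure X) [SigmaFinite ν] (hν : ∀ g, ν.map (fun x => ι g + x) = ν)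
    (hac : (PP r).map F ≪ ν) : False := by
  have := PP_prob h
  have := fun i => (h i).prob
  obtain ⟨μ, hμ⟩ : ∃ μ, μ = ((PP r).restrict B).map F := ⟨_, rfl⟩
  have μa : ∀ E, MeasurableSet E → μ E = PP r (F ⁻¹' E ∩ B) := fun E hE => by
    rw [hμ, Measure.map_apply hF hE, Measure.restrict_apply (hF hE)]
  have : IsFiniteMeasure μ := by rw [hμ]; infer_instance
  have ac : μ ≪ ν := (Measure.absolutelyContinuous_of_le
    (hμ ▸ Measure.map_mono Measure.restrict_le_self hF)).trans hac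
  obtain ⟨A, hA⟩ : ∃ A : ℕ → Set X, ∀ n, A n =
      {x | (n : ℝ≥0∞)⁻¹ ≤ μ.rnDeriv ν x ∧ μ.rnDeriv ν x ≤ n} := ⟨_, fun _ => rfl⟩
  have mA : ∀ n, MeasurableSet (A n) := fun n => by
    rw [hA]
    exact (measurableSet_le measurable_const (Measure.measurable_rnDeriv _ _)).inter
      (measurableSet_le (Measure.measurable_rnDeriv _ _) measurable_const)
  have lim := tendsto_measure_iInter_atTop (μ := μ) (s := fun n => (A n)ᶜ)
    (fun n => (mA n).compl.nullMeasurableSet) (fun n n' hn => Set.compl_subset_compl.2 ?_)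
    ⟨0, measure_ne_top _ _⟩
  swap
  · rw [hA, hA]
    have : (n : ℝ≥0∞) ≤ n' := by exact_mod_cast hn
    exact fun x hx => ⟨(ENNReal.inv_le_inv.2 this).trans hx.1, hx.2.trans this⟩
  have z : μ (⋂ n, (A n)ᶜ) = 0 := by
    rw [measure_eq_zero_iff_ae_notMem]
    filter_upwards [Measure.rnDeriv_pos ac, ac.ae_le (Measure.rnDeriv_lt_top μ ν)] with x p1 p2
    obtain ⟨n1, q1⟩ := ENNReal.exists_inv_nat_lt p1.ne'
    obtain ⟨n2, q2⟩ := ENNReal.exists_nat_gt p2.ne
    intro hx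
    refine Set.mem_iInter.1 hx (max n1 n2) ?_
    rw [hA]
    refine ⟨(ENNReal.inv_le_inv.2 ?_).trans q1.le, q2.le.trans ?_⟩
    · exact_mod_cast le_max_left _ _
    · exact_mod_cast le_max_right _ _
  rw [z] at lim
  obtain ⟨n, hn, n1⟩ := ((lim.eventually (gt_mem_nhds (tsub_pos_of_lt hBc))).and
    (eventually_ge_atTop 1)).exists
  have mG : MeasurableSet (B ∩ F ⁻¹' A n) := hB.inter (hF (mA n))
  have gc : PP r (B ∩ F ⁻¹' A n)ᶜ < 3 / 16 := by
    have := ENNReal.add_lt_add_right (measure_ne_top (PP r) Bᶜ) hn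
    rw [tsub_add_cancel_of_le hBc.le, Function.comp, μa _ (mA n).compl] at this
    refine ((measure_mono fun x hx => ?_).trans (measure_union_le _ _)).trans_lt this
    by_cases hx' : x ∈ B
    · exact Or.inl ⟨fun h' => hx ⟨hx', h'⟩, hx'⟩
    · exact Or.inr hx'
  obtain ⟨i, T₁, T₂, t1, t2, t3⟩ := hT (n ^ 2 + 1)
  have pick : ∀ T : Set ℤ, 3 / 8 ≤ mz (r i) T →
      ∃ a ∈ T, PP r {y | update y i a ∈ B ∩ F ⁻¹' A n}ᶜ < 1 / 2 := by
    intro T hT
    by_contra hc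
    push Not at hc
    refine gc.not_ge ?_
    rw [PP, coord _ i mG.compl]
    calc (3 / 16 : ℝ≥0∞) = 1 / 2 * (3 / 8) := by
          rw [ENNReal.div_eq_inv_mul, ENNReal.div_eq_inv_mul, ENNReal.div_eq_inv_mul, mul_one,
            ← mul_assoc, ← ENNReal.mul_inv (by simp) (by simp)]
          norm_num
      _ ≤ 1 / 2 * mz (r i) T := by gcongr
      _ ≤ _ := by
          rw [← Measure.tsum_indicator_apply_singleton _ _ MeasurableSet.of_discrete,
            ← ENNReal.tsum_mul_left]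
          refine ENNReal.tsum_le_tsum fun k => ?_
          by_cases hk : k ∈ T
          · rw [Set.indicator_of_mem hk]; exact mul_le_mul_left (hc k hk) _
          · simp [hk]
  obtain ⟨a, ha, pa⟩ := pick T₁ t1
  obtain ⟨b, hb, pb⟩ := pick T₂ t2
  obtain ⟨W, hW⟩ : ∃ W, W = {y | update y i a ∈ B ∩ F ⁻¹' A n} ∩
      {y | update y i b ∈ B ∩ F ⁻¹' A n} := ⟨_, rfl⟩
  have mW : MeasurableSet W := by
    rw [hW]
    exact (measurable_update_left mG).inter (measurable_update_left mG)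
  have W0 : PP r W ≠ 0 := by
    intro h0
    have e := (prob_compl_eq_one_iff mW).2 h0
    rw [hW, Set.compl_inter] at e
    have := (measure_union_le _ _).trans_lt (ENNReal.add_lt_add pa pb)
    rw [e, ENNReal.add_halves] at this
    exact lt_irrefl _ this
  have iW : ∀ y k, update y i k ∈ W ↔ y ∈ W := fun y k => by simp [hW]
  have mk : ∀ k : ℤ, MeasurableSet (W ∩ {y | y i = k}) := fun k =>
    mW.inter (measurableSet_eq_fun (measurable_pi_apply i) measurable_const)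
  have key : ∀ k : ℤ, W ∩ {y | y i = k} ⊆ B ∩ F ⁻¹' A n →
      MeasurableSet (F '' (W ∩ {y | y i = k})) ∧ F '' (W ∩ {y | y i = k}) ⊆ A n ∧
      μ (F '' (W ∩ {y | y i = k})) = PP r W * ENNReal.ofReal (r i k) := by
    intro k hk
    have m := (mk k).image_of_measurable_injOn hF (hinj.mono fun x hx => (hk hx).1)
    refine ⟨m, ?_, ?_⟩
    · rintro _ ⟨x, hx, rfl⟩; exact (hk hx).2
    · rw [μa _ m, hinj.preimage_image_inter fun x hx => (hk hx).1, PP, coord_inv _ i k mW iW,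
        mz_single]
  obtain ⟨a1, a2, a3⟩ := key a fun y hy => by
    have := (hW ▸ hy.1).1
    rwa [← hy.2, Set.mem_ofPred_eq, update_eq_self] at this
  obtain ⟨b1, b2, b3⟩ := key b fun y hy => by
    have := (hW ▸ hy.1).2
    rwa [← hy.2, Set.mem_ofPred_eq, update_eq_self] at this
  have c1 : μ (F '' (W ∩ {y | y i = a})) ≤ n * ν (F '' (W ∩ {y | y i = a})) := by
    rw [← Measure.setLIntegral_rnDeriv ac, ← setLIntegral_const]
    exact setLIntegral_mono measurable_const fun x hx => (hA n ▸ a2 hx).2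
  have c2 : (n : ℝ≥0∞)⁻¹ * ν (F '' (W ∩ {y | y i = b})) ≤ μ (F '' (W ∩ {y | y i = b})) := by
    rw [← Measure.setLIntegral_rnDeriv ac, ← setLIntegral_const]
    exact setLIntegral_mono (Measure.measurable_rnDeriv _ _) fun x hx => (hA n ▸ b2 hx).1
  have c3 : ν (F '' (W ∩ {y | y i = a})) ≤ ν (F '' (W ∩ {y | y i = b})) := by
    conv_rhs => rw [← hν (ψ (Finsupp.single i (b - a))),
      Measure.map_apply (measurable_const_add _) b1]
    refine measure_mono ?_
    rintro _ ⟨y, hy, rfl⟩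
    have y1 : y ∈ Ω := by
      have := (hW ▸ hy.1).1
      rw [← hy.2, Set.mem_ofPred_eq, update_eq_self] at this
      exact hBΩ this.1
    refine ⟨update y i b, ⟨(iW _ _).2 hy.1, by simp⟩, ?_⟩
    beta_reduce
    rw [← (hadd y y1 _).2]
    congr 1
    ext j
    by_cases hj : j = i
    · subst hj; have : y j = a := hy.2
      simp [this]
    · simp [hj]
  have n0 : (n : ℝ≥0∞) ≠ 0 := by simp; omega
  have c4 : ν (F '' (W ∩ {y | y i = b})) ≤ n * μ (F '' (W ∩ {y | y i = b})) := by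
    have := mul_le_mul_right c2 (n : ℝ≥0∞)
    rwa [← mul_assoc, ENNReal.mul_inv_cancel n0 (by simp), one_mul] at this
  have c5 := c1.trans (mul_le_mul_right (c3.trans c4) _)
  rw [a3, b3, ← mul_assoc, mul_left_comm,
    ENNReal.mul_le_mul_iff_right W0 (measure_ne_top _ _), ← ENNReal.ofReal_natCast,
    ← ENNReal.ofReal_mul (by positivity), ← ENNReal.ofReal_mul (by positivity),
    ENNReal.ofReal_le_ofReal_iff (by have := (h i).1 b; positivity)] at c5
  nlinarith [t3 a ha b hb, (h i).1 b]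

end Pool.Agent.H.MP_9152e2_an
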