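import Mathlib

set_option autoImplicit false

open Finset MeasureTheory Function Filter Topology TopologicalSpace
open scoped ENNReal

namespace Pool.Agent.H.MP_9152e2_an

variable {I : Type}

/-- weighted embedding of finitely supported integer vectors -/
noncomputable def emb (w : I → ℝ) (p : ℝ≥0∞) : (I →₀ ℤ) →+ lp (fun _ : I => ℝ) p where
  toFun a := ⟨fun i => a i * w i, (memℓp_zero (a.support.finite_toSet.subset fun i hi => by
    by_contra h; simp at h; simp [h] at hi)).of_exponent_ge zero_le⟩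
  map_zero' := by ext i; simp
  map_add' a b := by ext i; simp [add_mul]

lemma emb_apply (w : I → ℝ) (p : ℝ≥0∞) (a : I →₀ ℤ) (i : I) : emb w p a i = a i * w i := rfl

lemma norm_one_eq (f : lp (fun _ : I => ℝ) 1) : ‖f‖ = ∑' i, |f i| := by
  simpa using lp.norm_rpow_eq_tsum (by simp) f

lemma emb_one (w : I → ℝ) (a : I →₀ ℤ) : ‖emb w 1 a‖ = ∑ i ∈ a.support, |a i * w i| := by
  rw [norm_one_eq, tsum_eq_sum (s := a.support)]
  · rfl
  · intro i hi; simp [emb_apply, Finsupp.notMem_support_iff.1 hi]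

lemma emb_two (w : I → ℝ) (a : I →₀ ℤ) : ‖emb w 2 a‖ ^ 2 = ∑ i ∈ a.support, (a i * w i) ^ 2 := by
  have := lp.norm_rpow_eq_tsum (p := 2) (by simp) (emb w 2 a)
  simp only [ENNReal.toReal_ofNat, Real.rpow_ofNat, Real.norm_eq_abs, sq_abs] at this
  rw [this, tsum_eq_sum (s := a.support)]
  · rfl
  · intro i hi; simp [emb_apply, Finsupp.notMem_support_iff.1 hi]

lemma lp_sep [Countable I] : SeparableSpace (lp (fun _ : I => ℝ) 1) := by
  classical
  rw [← isSeparable_univ_iff]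
  refine ((Set.countable_range fun i : I =>
    (lp.single 1 i (1 : ℝ) : lp (fun _ : I => ℝ) 1)).isSeparable.span (R := ℝ)).closure.mono
    fun f _ => ?_
  refine mem_closure_of_tendsto (lp.hasSum_single (by simp) f) (Eventually.of_forall fun s => ?_)
  refine Submodule.sum_mem _ fun i _ => ?_
  have : (lp.single 1 i (f i) : lp (fun _ : I => ℝ) 1) = f i • lp.single 1 i (1 : ℝ) := by
    rw [← lp.single_smul]; simp
  rw [this]
  exact Submodule.smul_mem _ _ (Submodule.subset_span ⟨i, rfl⟩)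

lemma groups [Countable I] (δ c : I → ℝ) (hδ : ∀ i, 0 < δ i) (hc : ∀ i, 0 < c i)
    (hs : Summable fun i => (c i / δ i) ^ 2) (Λ : AddSubgroup (I →₀ ℤ))
    (hΛ : ∀ b ∈ Λ, b ≠ 0 → 1 ≤ ∑ i ∈ b.support, |b i * c i|) :
    ∃ (G X : Type) (_ : NormedAddCommGroup G) (_ : CompleteSpace G)
      (_ : SecondCountableTopology G) (_ : NormedAddCommGroup X) (_ : CompleteSpace X)
      (_ : SecondCountableTopology X) (_ : MeasurableSpace X) (_ : BorelSpace X)
      (ι : G →+ X) (ψ : (I →₀ ℤ) →+ G), Continuous ι ∧ DenseRange ψ ∧ (∀ b ∈ Λ, ψ b = 0) ∧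
      (∀ a, ‖ψ a‖ ^ 2 ≤ ∑ i ∈ a.support, (a i * δ i) ^ 2) ∧
      (∀ a η, ‖ψ a‖ < η → ∃ b, ψ b = ψ a ∧ ∑ i ∈ b.support, (b i * δ i) ^ 2 ≤ η ^ 2) ∧
      ∃ (F : (I → ℤ) → X) (Ω B : Set (I → ℤ)), Measurable F ∧ MeasurableSet Ω ∧
        MeasurableSet B ∧ B ⊆ Ω ∧ Set.InjOn F B ∧
        (∀ x ∈ Ω, ∀ a : I →₀ ℤ, x + a ∈ Ω ∧ F (x + a) = ι (ψ a) + F x) ∧
        (∀ x ∈ Ω, ∀ x' ∈ Ω, F x = F x' → ∃ a : I →₀ ℤ, x' = x + a) ∧
        (∀ x : I → ℤ, ∑' i, ENNReal.ofReal |x i * c i| < ⊤ → x ∈ Ω) ∧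
        (∀ x : I → ℤ, ∑' i, ENNReal.ofReal |x i * c i| < 1 / 2 → x ∈ B) := by
  have := lp_sep (I := I)
  have : SecondCountableTopology (lp (fun _ : I => ℝ) 1) :=
    UniformSpace.secondCountable_of_separable _
  obtain ⟨J, hJ⟩ : ∃ J : lp (fun _ : I => ℝ) 2 →L[ℝ] lp (fun _ : I => ℝ) 1,
      ∀ f i, J f i = c i / δ i * f i :=
    ⟨lp.holderL (p := 2) (q := 2) 1 (fun _ : I => ContinuousLinearMap.mul ℝ ℝ) (K := 1)
      (fun _ => ContinuousLinearMap.opNorm_mul_le _ _)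
      ⟨fun i => c i / δ i, memℓp_gen (by simpa [-norm_div] using hs)⟩, fun _ _ => rfl⟩
  have Je : ∀ a, J (emb δ 2 a) = emb c 1 a := fun a => by
    ext i; have := (hδ i).ne'; rw [hJ, emb_apply, emb_apply]; field_simp
  have Ji : Injective J := fun f g h => by
    ext i
    have := congrArg (fun u : lp (fun _ : I => ℝ) 1 => u i) h
    simp only [hJ] at this
    exact mul_left_cancel₀ (div_pos (hc i) (hδ i)).ne' this
  obtain ⟨L, hL⟩ : ∃ L, L = Λ.map (emb c 1) := ⟨_, rfl⟩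
  have L1 : ∀ v ∈ L, v ≠ 0 → 1 ≤ ‖v‖ := by
    rw [hL]
    rintro _ ⟨b, hb, rfl⟩ h0
    rw [emb_one]
    exact hΛ b hb fun h => h0 (by rw [h, map_zero])
  have cL : IsClosed (L : Set (lp (fun _ : I => ℝ) 1)) :=
    Metric.isClosed_of_pairwise_le_dist one_pos fun x hx y hy hxy => by
      beta_reduce; rw [dist_eq_norm]; exact L1 _ (L.sub_mem hx hy) (sub_ne_zero.2 hxy)
  obtain ⟨L', hL'⟩ : ∃ L' : AddSubgroup (lp (fun _ : I => ℝ) 2),
      L' = L.comap J.toLinearMap.toAddMonoidHom := ⟨_, rfl⟩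
  have mL : ∀ v, v ∈ L' ↔ J v ∈ L := fun v => by rw [hL']; rfl
  have cL' : IsClosed (L' : Set (lp (fun _ : I => ℝ) 2)) := by
    rw [hL']; exact cL.preimage J.continuous
  obtain ⟨φ, hφ⟩ : ∃ φ : (I →₀ ℤ) →+ lp (fun _ : I => ℝ) 2 ⧸ L',
      ∀ a, φ a = (emb δ 2 a : lp (fun _ : I => ℝ) 2 ⧸ L') :=
    ⟨(QuotientAddGroup.mk' L').comp (emb δ 2), fun _ => rfl⟩
  obtain ⟨j, jc, hj⟩ : ∃ j : lp (fun _ : I => ℝ) 2 ⧸ L' →+ lp (fun _ : I => ℝ) 1 ⧸ L,
      Continuous j ∧ ∀ v : lp (fun _ : I => ℝ) 2, j v = (J v : lp (fun _ : I => ℝ) 1) :=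
    ⟨QuotientAddGroup.map L' L J.toLinearMap.toAddMonoidHom hL'.le,
      (QuotientAddGroup.isQuotientMap_mk L').continuous_iff.2
        (QuotientAddGroup.continuous_mk.comp J.continuous), fun _ => rfl⟩
  have : CompleteSpace (lp (fun _ : I => ℝ) 2 ⧸ L') := QuotientAddGroup.completeSpace_left _ _
  have : CompleteSpace φ.range.topologicalClosure :=
    φ.range.isClosed_topologicalClosure.completeSpace_coe
  obtain ⟨ψ, hψ⟩ : ∃ ψ : (I →₀ ℤ) →+ φ.range.topologicalClosure, ∀ a, (ψ a).1 = φ a :=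
    ⟨φ.codRestrict _ fun a => φ.range.le_topologicalClosure ⟨a, rfl⟩, fun _ => rfl⟩
  have dψ : DenseRange ψ := by
    rw [DenseRange, Subtype.dense_iff]
    refine closure_mono ?_
    rintro _ ⟨a, rfl⟩
    exact ⟨ψ a, ⟨a, rfl⟩, hψ a⟩
  have : SeparableSpace φ.range.topologicalClosure := ⟨_, Set.countable_range ψ, dψ⟩
  borelize ↥(lp (fun _ : I => ℝ) 1) (↥(lp (fun _ : I => ℝ) 1) ⧸ L)
  have em : MeasurableEmbedding (fun f : lp (fun _ : I => ℝ) 1 => (f : I → ℝ)) :=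
    (lp.uniformContinuous_coe (E := fun _ : I => ℝ) (p := 1)).continuous.measurableEmbedding
      fun f g h => lp.ext h
  have mc : Measurable fun (x : I → ℤ) i => x i * c i := measurable_pi_lambda _ fun i =>
    (Measurable.of_discrete (f := fun k : ℤ => k * c i)).comp (measurable_pi_apply i)
  obtain ⟨Φ, mΦ, Ω, mΩ, hΩ, hΦ⟩ : ∃ Φ : (I → ℤ) → lp (fun _ : I => ℝ) 1, Measurable Φ ∧
      ∃ Ω : Set (I → ℤ), MeasurableSet Ω ∧ (∀ x, Memℓp (fun i => x i * c i) 1 → x ∈ Ω) ∧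
        ∀ x ∈ Ω, ∀ i, Φ x i = x i * c i := by
    refine ⟨_, em.measurable_invFun.comp mc, _, mc em.measurableSet_range,
      fun x hx => ⟨⟨_, hx⟩, rfl⟩, fun x ⟨f, hf⟩ i => ?_⟩
    have h1 : em.invFun (fun i => x i * c i) = f :=
      (congrArg em.invFun hf).symm.trans (em.leftInverse_invFun f)
    exact (congrArg (fun u : lp (fun _ : I => ℝ) 1 => u i) h1).trans (congrFun hf i)
  have fib : ∀ x ∈ Ω, ∀ x' ∈ Ω, (Φ x : lp (fun _ : I => ℝ) 1 ⧸ L) = Φ x' →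
      ∃ a : I →₀ ℤ, x' = x + a ∧ -Φ x + Φ x' ∈ L ∧ emb c 1 a = -Φ x + Φ x' := by
    intro x hx x' hx' h
    have h1 := QuotientAddGroup.eq.1 h
    obtain ⟨a, -, ha⟩ := hL ▸ h1
    refine ⟨a, ?_, h1, ha⟩
    ext i
    have := congrArg (fun u : lp (fun _ : I => ℝ) 1 => u i) ha
    simp only [emb_apply, lp.coeFn_add, lp.coeFn_neg, Pi.add_apply, Pi.neg_apply, hΦ x hx,
      hΦ x' hx'] at this
    have e : (x' i : ℝ) = x i + a i := mul_right_cancel₀ (hc i).ne' (by linarith)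
    exact_mod_cast e
  have sm : ∀ x : I → ℤ, ∑' i, ENNReal.ofReal |x i * c i| < ⊤ →
      Summable fun i => |x i * c i| := fun x hx => by
    simpa using ENNReal.summable_toReal hx.ne
  have mem : ∀ x : I → ℤ, ∑' i, ENNReal.ofReal |x i * c i| < ⊤ → x ∈ Ω := fun x hx =>
    hΩ x (memℓp_gen (by simpa using sm x hx))
  refine ⟨φ.range.topologicalClosure, lp (fun _ : I => ℝ) 1 ⧸ L, inferInstance, inferInstance,
    UniformSpace.secondCountable_of_separable _, inferInstance,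
    QuotientAddGroup.completeSpace_left _ _, inferInstance, inferInstance, inferInstance,
    j.comp (AddSubgroup.subtype _), ψ, jc.comp continuous_subtype_val, dψ, fun b hb => ?_,
    fun a => ?_, fun a η h => ?_, fun x => Φ x, Ω, Ω ∩ {x | ‖Φ x‖ < 1 / 2},
    QuotientAddGroup.continuous_mk.measurable.comp mΦ, mΩ,
    mΩ.inter (measurableSet_lt mΦ.norm measurable_const), Set.inter_subset_left,
    fun x hx x' hx' h => ?_, fun x hx a => ?_, fun x hx x' hx' h => ?_, mem, fun x hx => ?_⟩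
  · apply Subtype.ext
    rw [hψ, hφ]
    refine (QuotientAddGroup.eq_zero_iff _).2 ?_
    rw [mL, Je, hL]
    exact ⟨b, hb, rfl⟩
  · rw [← emb_two, AddSubgroup.coe_norm, hψ, hφ]
    gcongr
    exact QuotientAddGroup.norm_mk_le_norm
  · rw [AddSubgroup.coe_norm, hψ, hφ, QuotientAddGroup.norm_lt_iff] at h
    obtain ⟨m, hm, hm'⟩ := h
    have h1 := QuotientAddGroup.eq.1 hm
    have h2 := (mL _).1 h1
    obtain ⟨b, -, hb⟩ := hL ▸ h2
    rw [← Je] at hb
    have e : emb δ 2 (a - b) = m := by rw [map_sub, Ji hb]; abel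
    refine ⟨a - b, Subtype.ext ?_, ?_⟩
    · rw [hψ, hψ, hφ, hφ, e, hm]
    · rw [← emb_two, e]; gcongr
  · obtain ⟨a, h1, h2, h3⟩ := fib x hx.1 x' hx'.1 h
    have h4 : -Φ x + Φ x' = 0 := by
      by_contra h0
      have := L1 _ h2 h0
      have := norm_add_le (-Φ x) (Φ x')
      have a1 : ‖Φ x‖ < 1 / 2 := hx.2
      have a2 : ‖Φ x'‖ < 1 / 2 := hx'.2
      rw [norm_neg] at this
      linarith
    rw [h1]
    ext i
    have := congrArg (fun u : lp (fun _ : I => ℝ) 1 => u i) (h3.trans h4)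
    simp only [emb_apply, lp.coeFn_zero, Pi.zero_apply, mul_eq_zero, (hc i).ne', or_false,
      Int.cast_eq_zero] at this
    simp [this]
  · have e : (fun i => ((x + a : I → ℤ) i : ℝ) * c i) = ⇑(emb c 1 a + Φ x) := by
      ext i; simp [emb_apply, hΦ x hx]; ring
    have h1 : x + a ∈ Ω := hΩ _ (e ▸ lp.memℓp _)
    refine ⟨h1, ?_⟩
    have e2 : Φ (x + a) = emb c 1 a + Φ x := by
      ext i; rw [hΦ _ h1, ← e]
    beta_reduce
    rw [e2, QuotientAddGroup.mk_add, AddMonoidHom.comp_apply, AddSubgroup.subtype_apply, hψ, hφ,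
      hj, Je]
  · obtain ⟨a, h1, -⟩ := fib x hx x' hx' h
    exact ⟨a, h1⟩
  · have h1 := hx.trans_le le_top
    refine ⟨mem x h1, ?_⟩
    rw [← ENNReal.ofReal_tsum_of_nonneg (fun _ => abs_nonneg _) (sm x h1), ENNReal.div_eq_inv_mul,
      mul_one, ← ENNReal.ofReal_ofNat 2, ← ENNReal.ofReal_inv_of_pos two_pos,
      ENNReal.ofReal_lt_ofReal_iff (by norm_num)] at hx
    rw [Set.mem_ofPred_eq, norm_one_eq, one_div]
    simpa only [hΦ x (mem x h1)] using hx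

end Pool.Agent.H.MP_9152e2_an
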