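import Mathlib
import Pool.Agent.H.MP_9152e2_an.Step
import Pool.Agent.H.MP_9152e2_an.Conc

set_option autoImplicit false

open Finset MeasureTheory Function Filter Topology
open scoped ENNReal

namespace Pool.Agent.H.MP_9152e2_an

lemma level {G : Type} [NormedAddCommGroup G] [MeasurableSpace G] [BorelSpace G] {N : ℕ}
    [NeZero N] (Ψ : ZMod N →+ G) {d : ℕ} (t : Fin d → ZMod N) {κ δ : ℝ} (hκ : 0 < κ)
    (h : ∀ r : ZMod N, r ≠ 0 → κ ≤ ∑ j, ‖ZMod.stdAddChar (r * t j) - 1‖ ^ 2)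
    (hΨ : ∀ a : Fin d → ℤ, ‖Ψ (∑ j, (a j : ZMod N) * t j)‖ ^ 2 ≤ δ ^ 2 * ∑ j, (a j : ℝ) ^ 2) :
    ∃ m : Measure Ψ.range, IsProbabilityMeasure m ∧ m.IsAddLeftInvariant ∧
      ∀ A, MeasurableSet A → ∀ ε : ℝ, 0 < ε →
        κ * (m.real A * m.real (Metric.thickening ε A)ᶜ * ε ^ 4) ≤
          32 * δ ^ 2 * ε ^ 2 + 8 * d * δ ^ 4 := by
  classical
  obtain ⟨m, hm⟩ : ∃ m : Measure Ψ.range, ∀ A, MeasurableSet A →
      m A = (N : ℝ≥0∞)⁻¹ * (univ.filter fun y => Ψ.rangeRestrict y ∈ A).card :=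
    ⟨(N : ℝ≥0∞)⁻¹ • ∑ y, Measure.dirac (Ψ.rangeRestrict y), fun A hA => by
      simp [Measure.dirac_apply' _ hA, Set.indicator_apply]⟩
  have N0 : (0 : ℝ) < N := by exact_mod_cast NeZero.pos N
  refine ⟨m, ⟨?_⟩, ⟨fun k => ?_⟩, fun A hA ε hε => ?_⟩
  · rw [hm _ MeasurableSet.univ]
    simp [ENNReal.inv_mul_cancel, NeZero.ne N]
  · ext A hA
    obtain ⟨y, rfl⟩ := Ψ.rangeRestrict_surjective k
    rw [Measure.map_apply (measurable_const_add _) hA, hm _ (measurable_const_add _ hA), hm _ hA]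
    congr 2
    exact card_equiv (Equiv.addLeft y) (by simp)
  · have mT : MeasurableSet (Metric.thickening ε A)ᶜ := Metric.isOpen_thickening.measurableSet.compl
    have := conc t hκ h (univ.filter fun y => Ψ.rangeRestrict y ∈ A)
      (univ.filter fun y => Ψ.rangeRestrict y ∈ (Metric.thickening ε A)ᶜ) (δ := δ) hε
      fun y hy a ha => by
        refine le_trans ?_ (hΨ a)
        have h1 := (mem_filter.1 hy).2
        rw [Set.mem_compl_iff, Metric.mem_thickening_iff] at h1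
        push Not at h1
        have h2 := h1 _ (mem_filter.1 ha).2
        rw [dist_eq_norm, ← map_sub, sub_sub_cancel] at h2
        exact pow_le_pow_left₀ hε.le h2 2
    rw [Measure.real, Measure.real, hm _ hA, hm _ mT]
    simp only [ENNReal.toReal_mul, ENNReal.toReal_inv, ENNReal.toReal_natCast]
    refine le_of_mul_le_mul_left (le_trans (le_of_eq ?_) this) (pow_pos N0 2)
    field_simp
    congr!

lemma tower (M D : ℕ → ℕ) (hM : ∀ n, 1 ≤ M n) :
    ∃ (N p d : ℕ → ℕ) (t : ∀ n, Fin (d n) → ℤ), (∀ n, 0 < N n) ∧ (∀ n, N (n + 1) = N n * p n) ∧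
      (∀ n, D n ≤ d n) ∧ (∀ n, 0 < d n) ∧
      (∀ n (a : Fin (d n) → ℤ), a ≠ 0 → (p n : ℤ) ∣ ∑ j, a j * t n j →
        ((d n * M n : ℕ) : ℤ) ≤ ∑ j, |a j|) ∧
      ∀ n (r : ℤ), ¬ (N (n + 1) : ℤ) ∣ r → (d n : ℝ) / (3 * (54 * M n) ^ 3) ≤
        ∑ j, ‖ex (r * t n j / N (n + 1)) - 1‖ ^ 2 := by
  choose p d t h using fun (n : ℕ) (N : ℕ+) => step N (M n) (D n) N.pos (hM n)
  let N : ℕ → ℕ+ := fun n => Nat.rec 1 (fun n N => N * ⟨p n N, (h n N).1⟩) n
  exact ⟨fun n => (N n).val, fun n => p n (N n), fun n => d n (N n), fun n => t n (N n),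
    fun n => (N n).pos, fun n => rfl, fun n => (h n _).2.1, fun n => (h n _).2.2.1,
    fun n => (h n _).2.2.2.1, fun n => (h n (N n)).2.2.2.2⟩

variable {N p d : ℕ → ℕ} {t : ∀ n, Fin (d n) → ℤ}

/-- the map to the rationals -/
noncomputable def pr (N : ℕ → ℕ) (t : ∀ n, Fin (d n) → ℤ) : ((Σ n, Fin (d n)) →₀ ℤ) →ₗ[ℤ] ℚ :=
  Finsupp.linearCombination ℤ fun i => (t i.1 i.2 : ℚ) / N (i.1 + 1)

lemma level_sum {β : Type} [AddCommMonoid β] (b : (Σ n, Fin (d n)) →₀ ℤ) (n : ℕ)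
    (f : (Σ n, Fin (d n)) → β) (hf : ∀ i, b i = 0 → f i = 0) :
    ∑ i ∈ b.support with i.1 = n, f i = ∑ j, f ⟨n, j⟩ := by
  refine (sum_subset ?_ ?_).trans (sum_map univ (Embedding.sigmaMk n) f)
  · rintro ⟨k, j⟩ hi
    obtain rfl := (mem_filter.1 hi).2
    exact mem_map.2 ⟨j, mem_univ _, rfl⟩
  · intro i hi hi'
    obtain ⟨j, -, rfl⟩ := mem_map.1 hi
    exact hf _ (by simpa using hi')

lemma sep {M : ℕ → ℕ} (hM : ∀ n, 1 ≤ M n) (hN : ∀ n, 0 < N n) (hp : ∀ n, N (n + 1) = N n * p n)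
    (hd : ∀ n, 0 < d n) (h : ∀ n (a : Fin (d n) → ℤ), a ≠ 0 → (p n : ℤ) ∣ ∑ j, a j * t n j →
        ((d n * M n : ℕ) : ℤ) ≤ ∑ j, |a j|)
    (b : (Σ n, Fin (d n)) →₀ ℤ) (hb : pr N t b ∈ AddSubgroup.zmultiples (1 : ℚ)) (h0 : b ≠ 0) :
    1 ≤ ∑ i ∈ b.support, |b i * (1 / (d i.1 * M i.1) : ℝ)| := by
  obtain ⟨⟨n, j⟩, hi, hmax⟩ := exists_max_image b.support (fun i => i.1)
    (Finsupp.support_nonempty_iff.2 h0)
  have dv : ∀ k l, k ≤ l → N k ∣ N l := fun k l hkl => by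
    induction hkl with
    | refl => rfl
    | step _ ih => rw [hp]; exact ih.mul_right _
  have h1 := AddSubgroup.nsmul_mem _ hb (N n)
  rw [pr, Finsupp.linearCombination_apply, Finsupp.sum, smul_sum,
    ← sum_filter_add_sum_filter_not _ (fun i => i.1 = n), AddSubgroup.add_mem_cancel_right,
    level_sum b n _ fun i hi => by simp [hi]] at h1
  swap
  · refine sum_mem fun i hi => ?_
    have h2 := hmax i (mem_filter.1 hi).1
    obtain ⟨k, hk⟩ := dv (i.1 + 1) n (lt_of_le_of_ne h2 (mem_filter.1 hi).2)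
    refine ⟨k * b i * t i.1 i.2, ?_⟩
    have : (N (i.1 + 1) : ℚ) ≠ 0 := by exact_mod_cast (hN _).ne'
    simp only [zsmul_eq_mul, nsmul_eq_mul, hk]
    push_cast
    field_simp
  obtain ⟨k, hk⟩ := h1
  have p0 : (p n : ℚ) ≠ 0 := by
    have := hN (n + 1)
    rw [hp] at this
    exact_mod_cast (Nat.pos_of_mul_pos_left this).ne'
  have N0 : (N n : ℚ) ≠ 0 := by exact_mod_cast (hN _).ne'
  have h3 := h n (fun j => b ⟨n, j⟩) (fun e => Finsupp.mem_support_iff.1 hi (congrFun e j)) ⟨k, by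
    have : ∑ j, (b ⟨n, j⟩ : ℚ) * t n j = p n * k := by
      simp only [zsmul_eq_mul, nsmul_eq_mul, hp, mul_one] at hk
      rw [hk, mul_sum]
      refine sum_congr rfl fun j _ => ?_
      push_cast
      field_simp
    exact_mod_cast this⟩
  refine le_trans ?_ (sum_le_sum_of_subset_of_nonneg (filter_subset (fun i => i.1 = n) _)
    fun _ _ _ => abs_nonneg _)
  have d0 : (0 : ℝ) < d n * M n := by
    have := hd n; have := hM n; positivity
  rw [level_sum b n _ fun i hi => by simp [hi]]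
  simp only [abs_mul, abs_of_pos (one_div_pos.2 d0), ← sum_mul]
  rw [mul_one_div, one_le_div d0]
  exact_mod_cast h3

lemma levy {G : Type} [NormedAddCommGroup G] [MeasurableSpace G] [BorelSpace G]
    (hN : ∀ n, 0 < N n) (hp : ∀ n, N (n + 1) = N n * p n) {κ δ : ℕ → ℝ} (hκ : ∀ n, 0 < κ n)
    (h : ∀ n (r : ℤ), ¬ (N (n + 1) : ℤ) ∣ r → κ n ≤ ∑ j, ‖ex (r * t n j / N (n + 1)) - 1‖ ^ 2)
    (h1 : ∀ n : ℕ, (n + 1) * δ n ^ 2 ≤ 3 * κ n) (h2 : ∀ n : ℕ, (n + 1) * (d n * δ n ^ 4) ≤ 3 * κ n)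
    (ψ : ((Σ n, Fin (d n)) →₀ ℤ) →+ G) (hψ : DenseRange ψ)
    (h0 : ∀ b, pr N t b ∈ AddSubgroup.zmultiples (1 : ℚ) → ψ b = 0)
    (hn : ∀ a, ‖ψ a‖ ^ 2 ≤ ∑ i ∈ a.support, (a i * δ i.1) ^ 2) :
    ∃ (K : ℕ → AddSubgroup G) (m : ∀ n, Measure (K n)), Monotone K ∧
      (∀ n, IsCompact (K n : Set G)) ∧ Dense (⋃ n, (K n : Set G)) ∧
      (∀ n, IsProbabilityMeasure (m n) ∧ (m n).IsAddLeftInvariant) ∧
      ∀ A : ∀ n, Set (K n), (∀ n, MeasurableSet (A n)) →
        0 < liminf (fun n => m n (A n)) atTop →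
        ∀ ε : ℝ, 0 < ε → Tendsto (fun n => m n (Metric.thickening ε (A n))) atTop (𝓝 1) := by
  have : ∀ n, NeZero (N n) := fun n => ⟨(hN n).ne'⟩
  have N0 : ∀ n, (N n : ℚ) ≠ 0 := fun n => by exact_mod_cast (hN _).ne'
  have h' : ∀ n (r : ZMod (N (n + 1))), r ≠ 0 →
      κ n ≤ ∑ j, ‖ZMod.stdAddChar (r * (t n j : ZMod (N (n + 1)))) - 1‖ ^ 2 := by
    intro n r hr
    obtain ⟨r, rfl⟩ := ZMod.intCast_surjective r
    refine (h n r fun e => hr ((ZMod.intCast_zmod_eq_zero_iff_dvd _ _).2 e)).trans_eq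
      (sum_congr rfl fun j _ => ?_)
    rw [← Int.cast_mul (α := ZMod _), ZMod.stdAddChar_coe, ex]
    push_cast
    ring_nf
  have blk : ∀ n (a : Fin (d n) → ℤ), ∃ b : (Σ n, Fin (d n)) →₀ ℤ,
      pr N t b = (∑ j, a j * t n j : ℤ) / N (n + 1) ∧
      ∑ i ∈ b.support, (b i * δ i.1) ^ 2 ≤ δ n ^ 2 * ∑ j, (a j : ℝ) ^ 2 := by
    intro n a
    refine ⟨Finsupp.embDomain (Embedding.sigmaMk n) (Finsupp.equivFunOnFinite.symm a), ?_, ?_⟩
    · rw [pr, Finsupp.linearCombination_embDomain, Finsupp.linearCombination_apply,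
        Finsupp.sum_fintype _ _ (by simp)]
      simp [sum_div, mul_div_assoc]
      rfl
    · rw [Finsupp.support_embDomain, sum_map, mul_sum]
      simp only [Finsupp.embDomain_apply_self]
      refine (sum_le_sum_of_subset_of_nonneg (subset_univ _) fun _ _ _ => sq_nonneg _).trans_eq
        (sum_congr rfl fun j _ => ?_)
      simp [mul_pow, mul_comm]
  have ex : ∀ n, ∃ Ψ : ZMod (N (n + 1)) →+ G, (∀ a (y : ℤ),
      pr N t a - y / N (n + 1) ∈ AddSubgroup.zmultiples (1 : ℚ) → Ψ y = ψ a) ∧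
      ∀ y : ℤ, ∃ a, pr N t a - y / N (n + 1) ∈ AddSubgroup.zmultiples (1 : ℚ) := by
    intro n
    obtain ⟨a, ha⟩ := generate _ (hκ n) (h' n) 1
    obtain ⟨u, hu, -⟩ := blk n a
    have e1 : pr N t u - 1 / N (n + 1) ∈ AddSubgroup.zmultiples (1 : ℚ) := by
      obtain ⟨k, hk⟩ := (ZMod.intCast_eq_intCast_iff_dvd_sub 1 (∑ j, a j * t n j) _).1
        (by push_cast; exact ha)
      refine ⟨k, ?_⟩
      have := N0 (n + 1)
      rw [hu, eq_add_of_sub_eq hk]
      simp only [zsmul_eq_mul]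
      push_cast
      field_simp
      ring
    have e2 : ∀ y : ℤ, pr N t (y • u) - y / N (n + 1) ∈ AddSubgroup.zmultiples (1 : ℚ) :=
      fun y => by
        convert AddSubgroup.zsmul_mem _ e1 y using 1
        simp only [map_zsmul, zsmul_eq_mul]; ring
    refine ⟨ZMod.lift _ ⟨zmultiplesHom G (ψ u), ?_⟩, fun a y hy => ?_, fun y => ⟨_, e2 y⟩⟩
    · rw [zmultiplesHom_apply, ← map_zsmul]
      apply h0
      have := e2 (N (n + 1))
      rw [Int.cast_natCast, div_self (N0 _)] at this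
      simpa using add_mem this (AddSubgroup.mem_zmultiples 1)
    · rw [ZMod.lift_coe, zmultiplesHom_apply, ← map_zsmul, ← sub_eq_zero, ← map_sub]
      apply h0
      simpa using sub_mem (e2 y) hy
  choose Ψ hΨ hΨ' using ex
  choose m m1 m2 m3 using fun n => level (Ψ n) _ (δ := δ n) (hκ n) (h' n) fun a => by
    obtain ⟨b, hb, hb'⟩ := blk n a
    have := hΨ n b (∑ j, a j * t n j) (by rw [hb, sub_self]; exact zero_mem _)
    push_cast at this
    rw [this]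
    exact (hn b).trans hb'
  have mono : Monotone fun n => (Ψ n).range := monotone_nat_of_le_succ fun n => by
    rintro _ ⟨y, rfl⟩
    obtain ⟨y, rfl⟩ := ZMod.intCast_surjective y
    obtain ⟨a, ha⟩ := hΨ' n y
    refine ⟨(y * p (n + 1) : ℤ), (hΨ _ a _ ?_).trans (hΨ n a y ha).symm⟩
    convert ha using 2
    have := N0 (n + 1 + 1)
    rw [hp] at this ⊢
    push_cast at this ⊢
    rw [mul_div_mul_right _ _ (right_ne_zero_of_mul this)]
  refine ⟨fun n => (Ψ n).range, m, mono, fun n => (Set.finite_range (Ψ n)).isCompact, ?_,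
    fun n => ⟨m1 n, m2 n⟩, fun A hA hl ε hε => ?_⟩
  · rw [← AddSubgroup.coe_iSup_of_directed mono.directed_le]
    refine Dense.mono ?_ hψ
    rintro _ ⟨a, rfl⟩
    induction a using Finsupp.induction_linear with
    | zero => simp
    | add a b ha hb => rw [map_add]; exact add_mem ha hb
    | single i k =>
      refine AddSubgroup.mem_iSup_of_mem i.1 ⟨(k * t i.1 i.2 : ℤ), hΨ _ _ _ ?_⟩
      simp [pr, mul_div_assoc]
  · obtain ⟨a, a0, ha⟩ := ENNReal.lt_iff_exists_real_btwn.1 hl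
    have a1 : 0 < a := ENNReal.ofReal_pos.1 ha.1
    have lim : Tendsto (fun n => (m n).real (Metric.thickening ε (A n))ᶜ) atTop (𝓝 0) := by
      refine squeeze_zero' (Eventually.of_forall fun _ => measureReal_nonneg) ?_
        (mul_zero ((96 * ε ^ 2 + 24) / (a * ε ^ 4)) ▸
          (tendsto_one_div_add_atTop_nhds_zero_nat (𝕜 := ℝ)).const_mul _)
      filter_upwards [eventually_lt_of_lt_liminf ha.2] with n hn
      have b1 : a ≤ (m n).real (A n) := (ENNReal.ofReal_le_iff_le_toReal (measure_ne_top _ _)).1 hn.le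
      have b2 := m3 n _ (hA n) ε hε
      have b3 : 0 ≤ (m n).real (Metric.thickening ε (A n))ᶜ := measureReal_nonneg
      have b4 : κ n * (a * (m n).real (Metric.thickening ε (A n))ᶜ * ε ^ 4) ≤
          32 * δ n ^ 2 * ε ^ 2 + 8 * d n * δ n ^ 4 := le_trans (by have := hκ n; gcongr) b2
      have b5 := mul_le_mul_of_nonneg_left b4 (show (0 : ℝ) ≤ n + 1 by positivity)
      rw [mul_one_div, div_div, le_div_iff₀ (by positivity)]
      refine le_of_mul_le_mul_left ?_ (hκ n)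
      nlinarith [h2 n, mul_le_mul_of_nonneg_left (h1 n) (sq_nonneg ε)]
    have := ENNReal.tendsto_ofReal (lim.const_sub 1)
    rw [sub_zero, ENNReal.ofReal_one] at this
    refine this.congr fun n => ?_
    rw [probReal_compl_eq_one_sub Metric.isOpen_thickening.measurableSet, sub_sub_cancel,
      ofReal_measureReal]

end Pool.Agent.H.MP_9152e2_an
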